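import Mathlib
import Pool.Agent.H11.SC.Appr

/-!
# TWO: the relation at the cusp `1/2` given by the Euler factor at `2`

`TwoRel a c`: `c` are the coefficients of the inverse of the Euler factor at `2`.
`f z = gs a 3 (-(I z)) = ∑ a n n³ e(nz)`.  Absolutely convergent double series:
`∑_k c k 8^k f(2^k z) = ∑_k ∑_m c k a m (2^k m)³ e(2^k m z) = ∑_n (∑_{2^k ∣ n} c k a(n/2^k)) n³ e(nz)
 = ∑_{n odd} a n n³ e(nz)`, and this changes its sign under `z ↦ z + 1/2`.  For `k ≥ 1`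
`f(2^k (z + 1/2)) = f(2^k z)`, so `f(z + 1/2) + f(z) + 2 ∑_{k ≥ 1} c k 8^k f(2^k z) = 0`.  With
`phi a z = (Im z)^(7/2) ‖f z‖` this gives
`phi a (z+1/2) ≤ phi a z + 2 ∑_{k≥1} ‖c k‖ 8^k 2^(-7k/2) phi a (2^k z)`, `8^k 2^(-7k/2) = 2^(-k/2)`.
Absolute convergence: `‖c k‖ ≤ C 2^(k/2)`, `‖a m‖ ≤ C m`, so the term at `(k, n)`, `n = 2^k m`, is at
most `‖c k‖ 2^(-k) C n⁴ e^(-2π n y) ≤ (‖c k‖ 2^(-k/2)) (C n⁴ e^(-2πny))`.  The right side converges since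
`phi a (2^k z)` is bounded in `k` (`phi_top` with `y0 = Im z`).
`TwoRel.conj`: conjugate.  `Psi_half`: add the inequalities for `(a, c)` and `(cj a, cj c)`.
-/

set_option autoImplicit false

namespace Pool.Agent.H11.SC

open Complex

/-- `c` are the coefficients of the inverse of the Euler factor at `2` -/
structure TwoRel (a c : ℕ → ℂ) : Prop where
  zero : c 0 = 1
  sum : Summable (fun k : ℕ => ‖c k‖ * (2 : ℝ) ^ (-((k : ℝ) / 2)))
  rel : ∀ n : ℕ, 1 ≤ n → ∑ k ∈ Finset.range (n + 1),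
    (if 2 ^ k ∣ n then c k * a (n / 2 ^ k) else 0) = if Odd n then a n else 0

theorem TwoRel.conj {a c : ℕ → ℂ} (h : TwoRel a c) : TwoRel (cj a) (cj c) := by
  refine ⟨?_, ?_, ?_⟩
  · unfold cj
    rw [h.zero, map_one]
  · have h1 := h.sum
    refine h1.congr (fun k => ?_)
    unfold cj
    rw [Complex.norm_conj]
  · intro n hn
    have h1 := congrArg (starRingEnd ℂ) (h.rel n hn)
    rw [map_sum] at h1
    have h2 : (starRingEnd ℂ) (if Odd n then a n else 0) = if Odd n then cj a n else 0 := by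
      split_ifs
      · rfl
      · exact map_zero _
    rw [h2] at h1
    rw [← h1]
    refine Finset.sum_congr rfl (fun k _ => ?_)
    split_ifs
    · unfold cj
      rw [map_mul]
    · exact (map_zero _).symm

/-- the exponential of the Fourier expansion -/
noncomputable def twoE (z : ℂ) (n : ℕ) : ℂ := cexp (-(2 * (Real.pi : ℂ) * n * (-(I * z))))

/-- the terms of the double series -/
noncomputable def twoG (a c : ℕ → ℂ) (z : ℂ) (k n : ℕ) : ℂ :=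
  if 2 ^ k ∣ n then c k * a (n / 2 ^ k) * (n : ℂ) ^ 3 * twoE z n else 0

theorem twoE_norm (z : ℂ) (n : ℕ) : ‖twoE z n‖ = Real.exp (-(2 * Real.pi * n * z.im)) := by
  unfold twoE
  rw [norm_cexp_gs]
  congr 2
  simp

theorem twoE_mul (z : ℂ) (k m : ℕ) : twoE z (2 ^ k * m) = twoE (2 ^ k * z) m := by
  unfold twoE
  congr 1
  push_cast
  ring

theorem twoE_half_odd (z : ℂ) (n : ℕ) (hn : Odd n) : twoE (z + 1 / 2) n = -twoE z n := by
  obtain ⟨m, hm⟩ := hn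
  unfold twoE
  have h1 : -(2 * (Real.pi : ℂ) * n * (-(I * (z + 1 / 2)))) =
      -(2 * (Real.pi : ℂ) * n * (-(I * z))) + (((Real.pi : ℂ) * I) + m * (2 * Real.pi * I)) := by
    rw [hm]
    push_cast
    ring
  rw [h1, Complex.exp_add, Complex.exp_add, Complex.exp_pi_mul_I, Complex.exp_nat_mul_two_pi_mul_I]
  ring

theorem gs_per_nat (a : ℕ → ℂ) (z : ℂ) (j : ℕ) :
    gs a 3 (-(I * (z + j))) = gs a 3 (-(I * z)) := by
  unfold gs
  apply tsum_congr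
  intro n
  congr 1
  rw [Complex.exp_eq_exp_iff_exists_int]
  refine ⟨n * j, ?_⟩
  push_cast
  ring

theorem twoG_fiber (a c : ℕ → ℂ) (z : ℂ) (k : ℕ) :
    ∑' n : ℕ, twoG a c z k n = c k * 8 ^ k * gs a 3 (-(I * (2 ^ k * z))) := by
  have hinj : Function.Injective (fun m : ℕ => 2 ^ k * m) := by
    intro m1 m2 h
    exact Nat.eq_of_mul_eq_mul_left (by positivity) h
  have hsupp : Function.support (twoG a c z k) ⊆ Set.range (fun m : ℕ => 2 ^ k * m) := by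
    intro n hn
    by_contra hcon
    apply hn
    unfold twoG
    rw [if_neg]
    intro hd
    obtain ⟨m, hm⟩ := hd
    exact hcon ⟨m, hm.symm⟩
  rw [← hinj.tsum_eq hsupp]
  unfold gs
  rw [← tsum_mul_left]
  apply tsum_congr
  intro m
  unfold twoG
  rw [if_pos (Dvd.intro m rfl), Nat.mul_div_cancel_left m (by positivity), twoE_mul]
  unfold twoE
  push_cast
  have h8 : (8 : ℂ) ^ k = ((2 : ℂ) ^ k) ^ 3 := by
    rw [← pow_mul, mul_comm k 3, pow_mul]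
    norm_num
  rw [h8]
  ring

theorem twoG_bound (a c : ℕ → ℂ) (C : ℝ) (hC0 : 0 ≤ C) (hC : ∀ n : ℕ, 1 ≤ n → ‖a n‖ ≤ C * (n : ℝ))
    (z : ℂ) (k n : ℕ) :
    ‖twoG a c z k n‖ ≤ (‖c k‖ * (2 : ℝ) ^ (-((k : ℝ) / 2))) *
      (C * ((n : ℝ) ^ 4 * Real.exp (-(2 * Real.pi * n * z.im)))) := by
  have hnn : 0 ≤ (‖c k‖ * (2 : ℝ) ^ (-((k : ℝ) / 2))) *
      (C * ((n : ℝ) ^ 4 * Real.exp (-(2 * Real.pi * n * z.im)))) := by positivity
  unfold twoG
  split_ifs with hd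
  · rcases Nat.eq_zero_or_pos n with h0 | hn
    · subst h0
      simp
    · obtain ⟨m, hm⟩ := hd
      have hm1 : 1 ≤ m := by
        rcases Nat.eq_zero_or_pos m with h | h
        · subst h
          omega
        · exact h
      have hdiv : n / 2 ^ k = m := by
        rw [hm]
        exact Nat.mul_div_cancel_left m (by positivity)
      rw [hdiv, norm_mul, norm_mul, norm_mul, norm_pow, Complex.norm_natCast, twoE_norm]
      have h2k : (0 : ℝ) < 2 ^ k := by positivity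
      have hnm : (n : ℝ) = 2 ^ k * m := by
        rw [hm]
        push_cast
        ring
      have ham : ‖a m‖ ≤ C * ((n : ℝ) * (2 : ℝ) ^ (-((k : ℝ) / 2))) := by
        refine (hC m hm1).trans (mul_le_mul_of_nonneg_left ?_ hC0)
        have hpow : (1 : ℝ) ≤ 2 ^ k * (2 : ℝ) ^ (-((k : ℝ) / 2)) := by
          rw [← Real.rpow_natCast, ← Real.rpow_add (by norm_num)]
          apply Real.one_le_rpow (by norm_num)
          have : (0 : ℝ) ≤ k := Nat.cast_nonneg k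
          linarith
        rw [hnm]
        have hm0 : (0 : ℝ) ≤ m := Nat.cast_nonneg m
        calc (m : ℝ) = m * 1 := by ring
          _ ≤ m * (2 ^ k * (2 : ℝ) ^ (-((k : ℝ) / 2))) := mul_le_mul_of_nonneg_left hpow hm0
          _ = _ := by ring
      calc ‖c k‖ * ‖a m‖ * (n : ℝ) ^ 3 * Real.exp (-(2 * Real.pi * n * z.im))
          ≤ ‖c k‖ * (C * ((n : ℝ) * (2 : ℝ) ^ (-((k : ℝ) / 2)))) * (n : ℝ) ^ 3 *
            Real.exp (-(2 * Real.pi * n * z.im)) := by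
            gcongr
        _ = _ := by ring
  · simpa using hnn

theorem twoG_summable (a c : ℕ → ℂ) (h : TwoRel a c)
    (ha : ∃ C : ℝ, ∀ n : ℕ, 1 ≤ n → ‖a n‖ ≤ C * (n : ℝ) ^ (1 : ℝ)) (z : ℂ) (hz : 0 < z.im) :
    Summable (Function.uncurry (twoG a c z)) := by
  obtain ⟨C, hC⟩ := ha
  have hC0 : 0 ≤ C := by
    have := hC 1 le_rfl
    simp only [Nat.cast_one, Real.one_rpow, mul_one] at this
    exact (norm_nonneg _).trans this
  have hC' : ∀ n : ℕ, 1 ≤ n → ‖a n‖ ≤ C * (n : ℝ) := by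
    intro n hn
    have := hC n hn
    rwa [Real.rpow_one] at this
  have hpi := Real.pi_pos
  have h0 := Real.summable_pow_mul_exp_neg_nat_mul 4 (show 0 < 2 * Real.pi * z.im by positivity)
  have h1 : Summable (fun n : ℕ => C * ((n : ℝ) ^ 4 * Real.exp (-(2 * Real.pi * n * z.im)))) := by
    refine (h0.mul_left C).congr (fun n => ?_)
    congr 3
    ring
  have h2 := h.sum.mul_of_nonneg h1 (fun k => by positivity) (fun n => by positivity)
  refine Summable.of_norm_bounded h2 (fun p => ?_)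
  exact twoG_bound a c C hC0 hC' z p.1 p.2

theorem twoG_inner (a c : ℕ → ℂ) (h : TwoRel a c) (z : ℂ) (n : ℕ) :
    ∑' k : ℕ, twoG a c z k n = (if Odd n then a n else 0) * (n : ℂ) ^ 3 * twoE z n := by
  rcases Nat.eq_zero_or_pos n with h0 | hn
  · subst h0
    have : ∀ k : ℕ, twoG a c z k 0 = 0 := by
      intro k
      unfold twoG
      simp
    simp [this]
  · rw [tsum_eq_sum (s := Finset.range (n + 1))]
    · rw [← h.rel n hn, Finset.sum_mul, Finset.sum_mul]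
      refine Finset.sum_congr rfl (fun k _ => ?_)
      unfold twoG
      split_ifs
      · rfl
      · ring
    · intro k hk
      unfold twoG
      rw [if_neg]
      intro hd
      apply hk
      rw [Finset.mem_range]
      have h1 : 2 ^ k ≤ n := Nat.le_of_dvd hn hd
      have h2 : k < 2 ^ k := Nat.lt_two_pow_self
      omega

theorem two_main (a c : ℕ → ℂ) (h : TwoRel a c)
    (ha : ∃ C : ℝ, ∀ n : ℕ, 1 ≤ n → ‖a n‖ ≤ C * (n : ℝ) ^ (1 : ℝ)) (z : ℂ) (hz : 0 < z.im) :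
    Summable (fun k : ℕ => c k * 8 ^ k * gs a 3 (-(I * (2 ^ k * z)))) ∧
    ∑' k : ℕ, c k * 8 ^ k * gs a 3 (-(I * (2 ^ k * z))) =
      ∑' n : ℕ, (if Odd n then a n else 0) * (n : ℂ) ^ 3 * twoE z n := by
  have hs := twoG_summable a c h ha z hz
  constructor
  · refine hs.prod.congr (fun k => ?_)
    exact (twoG_fiber a c z k)
  · calc ∑' k : ℕ, c k * 8 ^ k * gs a 3 (-(I * (2 ^ k * z)))
        = ∑' k : ℕ, ∑' n : ℕ, twoG a c z k n := by
          refine tsum_congr (fun k => ?_)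
          exact (twoG_fiber a c z k).symm
      _ = ∑' n : ℕ, ∑' k : ℕ, twoG a c z k n := (hs.tsum_comm).symm
      _ = _ := by
          refine tsum_congr (fun n => ?_)
          exact twoG_inner a c h z n

theorem two_rel (a c : ℕ → ℂ) (h : TwoRel a c)
    (ha : ∃ C : ℝ, ∀ n : ℕ, 1 ≤ n → ‖a n‖ ≤ C * (n : ℝ) ^ (1 : ℝ)) (z : ℂ) (hz : 0 < z.im) :
    gs a 3 (-(I * (z + 1 / 2))) = -gs a 3 (-(I * z)) -
      2 * ∑' k : ℕ, c (k + 1) * 8 ^ (k + 1) * gs a 3 (-(I * (2 ^ (k + 1) * z))) := by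
  have hz2 : 0 < (z + 1 / 2).im := by
    have : (z + 1 / 2 : ℂ).im = z.im := by
      simp
    rw [this]
    exact hz
  obtain ⟨s1, e1⟩ := two_main a c h ha z hz
  obtain ⟨s2, e2⟩ := two_main a c h ha (z + 1 / 2) hz2
  rw [s1.tsum_eq_zero_add] at e1
  rw [s2.tsum_eq_zero_add] at e2
  have e3 : ∑' n : ℕ, (if Odd n then a n else 0) * (n : ℂ) ^ 3 * twoE (z + 1 / 2) n =
      -∑' n : ℕ, (if Odd n then a n else 0) * (n : ℂ) ^ 3 * twoE z n := by
    rw [← tsum_neg]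
    refine tsum_congr (fun n => ?_)
    split_ifs with ho
    · rw [twoE_half_odd z n ho]
      ring
    · ring
  have e4 : ∑' k : ℕ, c (k + 1) * 8 ^ (k + 1) * gs a 3 (-(I * (2 ^ (k + 1) * (z + 1 / 2)))) =
      ∑' k : ℕ, c (k + 1) * 8 ^ (k + 1) * gs a 3 (-(I * (2 ^ (k + 1) * z))) := by
    refine tsum_congr (fun k => ?_)
    congr 1
    have : (2 : ℂ) ^ (k + 1) * (z + 1 / 2) = 2 ^ (k + 1) * z + ((2 ^ k : ℕ) : ℂ) := by
      push_cast
      ring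
    rw [this, gs_per_nat]
  rw [e3, ← e1, e4] at e2
  simp only [h.zero, pow_zero, one_mul] at e2
  linear_combination e2

theorem two_pow_weight (k : ℕ) (y : ℝ) (hy : 0 < y) :
    y ^ (7 / 2 : ℝ) * 8 ^ k = (2 : ℝ) ^ (-((k : ℝ) / 2)) * (2 ^ k * y) ^ (7 / 2 : ℝ) := by
  rw [Real.mul_rpow (by positivity) hy.le]
  have h1 : ((2 : ℝ) ^ k) ^ (7 / 2 : ℝ) = (2 : ℝ) ^ ((k : ℝ) * (7 / 2)) := by
    rw [Real.rpow_mul (by norm_num), Real.rpow_natCast]
  have h2 : (8 : ℝ) ^ k = (2 : ℝ) ^ ((k : ℝ) * 3) := by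
    rw [mul_comm, Real.rpow_mul (by norm_num), Real.rpow_natCast]
    norm_num
  have h3 : (2 : ℝ) ^ (-((k : ℝ) / 2)) * (2 : ℝ) ^ ((k : ℝ) * (7 / 2)) = (2 : ℝ) ^ ((k : ℝ) * 3) := by
    rw [← Real.rpow_add (by norm_num)]
    congr 1
    ring
  rw [h1, h2, ← h3]
  ring

theorem phi_two_pow (a : ℕ → ℂ) (k : ℕ) (z : ℂ) (hz : 0 < z.im) :
    z.im ^ (7 / 2 : ℝ) * (8 ^ k * ‖gs a 3 (-(I * (2 ^ k * z)))‖) =
      (2 : ℝ) ^ (-((k : ℝ) / 2)) * phi a (2 ^ k * z) := by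
  unfold phi
  have him : ((2 : ℂ) ^ k * z).im = 2 ^ k * z.im := by
    have : ((2 : ℂ) ^ k) = (((2 : ℝ) ^ k : ℝ) : ℂ) := by push_cast; ring
    rw [this, Complex.im_ofReal_mul]
  rw [him, ← mul_assoc, two_pow_weight k z.im hz]
  ring

theorem phi_weight_summable {a c : ℕ → ℂ} (h : TwoRel a c)
    (ha : ∃ C : ℝ, ∀ n : ℕ, 1 ≤ n → ‖a n‖ ≤ C * (n : ℝ) ^ (1 : ℝ)) (z : ℂ) (hz : 0 < z.im) :
    Summable (fun k : ℕ => (2 * ‖c (k + 1)‖ * (2 : ℝ) ^ (-(((k : ℝ) + 1) / 2))) *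
      phi a (2 ^ (k + 1) * z)) := by
  obtain ⟨M, hM⟩ := phi_top a ha z.im hz
  have h1 := (summable_nat_add_iff 1).2 h.sum
  have h2 : Summable (fun k : ℕ => (2 * ‖c (k + 1)‖ * (2 : ℝ) ^ (-(((k : ℝ) + 1) / 2))) * M) := by
    refine (h1.mul_left (2 * M)).congr (fun k => ?_)
    push_cast
    ring
  have him : ∀ k : ℕ, ((2 : ℂ) ^ (k + 1) * z).im = 2 ^ (k + 1) * z.im := by
    intro k
    have : ((2 : ℂ) ^ (k + 1)) = (((2 : ℝ) ^ (k + 1) : ℝ) : ℂ) := by push_cast; ring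
    rw [this, Complex.im_ofReal_mul]
  refine Summable.of_nonneg_of_le (fun k => ?_) (fun k => ?_) h2
  · have : 0 ≤ phi a (2 ^ (k + 1) * z) := by
      apply phi_nonneg
      rw [him]
      positivity
    positivity
  · apply mul_le_mul_of_nonneg_left _ (by positivity)
    apply hM
    rw [him]
    have : (1 : ℝ) ≤ 2 ^ (k + 1) := one_le_pow₀ (by norm_num)
    nlinarith

theorem phi_half {a c : ℕ → ℂ} (h : TwoRel a c)
    (ha : ∃ C : ℝ, ∀ n : ℕ, 1 ≤ n → ‖a n‖ ≤ C * (n : ℝ) ^ (1 : ℝ)) (z : ℂ) (hz : 0 < z.im) :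
    phi a (z + 1 / 2) ≤ phi a z +
      ∑' k : ℕ, (2 * ‖c (k + 1)‖ * (2 : ℝ) ^ (-(((k : ℝ) + 1) / 2))) * phi a (2 ^ (k + 1) * z) := by
  have hrel := two_rel a c h ha z hz
  have hW := phi_weight_summable h ha z hz
  have hyp : 0 < z.im ^ (7 / 2 : ℝ) := Real.rpow_pos_of_pos hz _
  -- the terms
  have hterm : ∀ k : ℕ, (2 * ‖c (k + 1)‖ * (2 : ℝ) ^ (-(((k : ℝ) + 1) / 2))) *
      phi a (2 ^ (k + 1) * z) = (2 * z.im ^ (7 / 2 : ℝ)) *
        ‖c (k + 1) * 8 ^ (k + 1) * gs a 3 (-(I * (2 ^ (k + 1) * z)))‖ := by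
    intro k
    have h1 := phi_two_pow a (k + 1) z hz
    rw [norm_mul, norm_mul, norm_pow]
    have h8 : ‖(8 : ℂ)‖ = 8 := by norm_num
    rw [h8]
    have hcast : (((k + 1 : ℕ) : ℝ) / 2) = ((k : ℝ) + 1) / 2 := by push_cast; ring
    rw [hcast] at h1
    calc (2 * ‖c (k + 1)‖ * (2 : ℝ) ^ (-(((k : ℝ) + 1) / 2))) * phi a (2 ^ (k + 1) * z)
        = (2 * ‖c (k + 1)‖) * ((2 : ℝ) ^ (-(((k : ℝ) + 1) / 2)) * phi a (2 ^ (k + 1) * z)) := by
          ring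
      _ = (2 * ‖c (k + 1)‖) *
          (z.im ^ (7 / 2 : ℝ) * (8 ^ (k + 1) * ‖gs a 3 (-(I * (2 ^ (k + 1) * z)))‖)) := by
          rw [← h1]
      _ = _ := by ring
  have hS : Summable (fun k : ℕ =>
      ‖c (k + 1) * 8 ^ (k + 1) * gs a 3 (-(I * (2 ^ (k + 1) * z)))‖) := by
    have h2 : Summable (fun k : ℕ => (2 * z.im ^ (7 / 2 : ℝ)) *
        ‖c (k + 1) * 8 ^ (k + 1) * gs a 3 (-(I * (2 ^ (k + 1) * z)))‖) :=
      hW.congr hterm
    exact (summable_mul_left_iff (by positivity)).1 h2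
  have hn := norm_tsum_le_tsum_norm hS
  have hnorm : ‖gs a 3 (-(I * (z + 1 / 2)))‖ ≤ ‖gs a 3 (-(I * z))‖ +
      2 * ∑' k : ℕ, ‖c (k + 1) * 8 ^ (k + 1) * gs a 3 (-(I * (2 ^ (k + 1) * z)))‖ := by
    rw [hrel]
    refine (norm_sub_le _ _).trans ?_
    rw [norm_neg, norm_mul]
    have h2 : ‖(2 : ℂ)‖ = 2 := by norm_num
    rw [h2]
    linarith
  have him : (z + 1 / 2 : ℂ).im = z.im := by
    simp
  have hR : ∑' k : ℕ, (2 * ‖c (k + 1)‖ * (2 : ℝ) ^ (-(((k : ℝ) + 1) / 2))) *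
      phi a (2 ^ (k + 1) * z) = (2 * z.im ^ (7 / 2 : ℝ)) *
      ∑' k : ℕ, ‖c (k + 1) * 8 ^ (k + 1) * gs a 3 (-(I * (2 ^ (k + 1) * z)))‖ := by
    rw [← tsum_mul_left]
    exact tsum_congr hterm
  rw [hR]
  unfold phi
  rw [him]
  calc z.im ^ (7 / 2 : ℝ) * ‖gs a 3 (-(I * (z + 1 / 2)))‖
      ≤ z.im ^ (7 / 2 : ℝ) * (‖gs a 3 (-(I * z))‖ +
        2 * ∑' k : ℕ, ‖c (k + 1) * 8 ^ (k + 1) * gs a 3 (-(I * (2 ^ (k + 1) * z)))‖) :=
        mul_le_mul_of_nonneg_left hnorm hyp.le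
    _ = _ := by ring

theorem Psi_half {a c : ℕ → ℂ} (h : TwoRel a c)
    (ha : ∃ C : ℝ, ∀ n : ℕ, 1 ≤ n → ‖a n‖ ≤ C * (n : ℝ) ^ (1 : ℝ)) :
    ∃ w : ℕ → ℝ, (∀ k, 0 ≤ w k) ∧ Summable w ∧ ∀ z : ℂ, 0 < z.im →
      Psi a (z + 1 / 2) ≤ Psi a z + ∑' k : ℕ, w k * Psi a (2 ^ (k + 1) * z) := by
  refine ⟨fun k => 2 * ‖c (k + 1)‖ * (2 : ℝ) ^ (-(((k : ℝ) + 1) / 2)), fun k => by positivity,
    ?_, ?_⟩
  · have h1 := (summable_nat_add_iff 1).2 h.sum
    refine (h1.mul_left 2).congr (fun k => ?_)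
    push_cast
    ring
  · intro z hz
    have h1 := phi_half h ha z hz
    have h2 := phi_half h.conj (cj_ram a 1 ha) z hz
    have s1 := phi_weight_summable h ha z hz
    have s2 := phi_weight_summable h.conj (cj_ram a 1 ha) z hz
    have hc : ∀ k : ℕ, ‖cj c k‖ = ‖c k‖ := by
      intro k
      unfold cj
      rw [Complex.norm_conj]
    simp only [hc] at h2 s2
    have h3 : ∑' k : ℕ, (2 * ‖c (k + 1)‖ * (2 : ℝ) ^ (-(((k : ℝ) + 1) / 2))) *
        Psi a (2 ^ (k + 1) * z) =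
        ∑' k : ℕ, (2 * ‖c (k + 1)‖ * (2 : ℝ) ^ (-(((k : ℝ) + 1) / 2))) *
          phi a (2 ^ (k + 1) * z) +
        ∑' k : ℕ, (2 * ‖c (k + 1)‖ * (2 : ℝ) ^ (-(((k : ℝ) + 1) / 2))) *
          phi (cj a) (2 ^ (k + 1) * z) := by
      rw [← s1.tsum_add s2]
      refine tsum_congr (fun k => ?_)
      unfold Psi
      ring
    show Psi a (z + 1 / 2) ≤ Psi a z + ∑' k : ℕ, (2 * ‖c (k + 1)‖ *
      (2 : ℝ) ^ (-(((k : ℝ) + 1) / 2))) * Psi a (2 ^ (k + 1) * z)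
    rw [h3]
    have e1 : Psi a (z + 1 / 2) = phi a (z + 1 / 2) + phi (cj a) (z + 1 / 2) := rfl
    have e2 : Psi a z = phi a z + phi (cj a) z := rfl
    rw [e1, e2]
    linarith

end Pool.Agent.H11.SC
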