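import Mathlib
import Pool.Agent.H11.Selberg.Equiv
import Pool.Agent.H11.SC4.Two

/-!
# TWOC: the relation at `2` holds in the Selberg class

`h.euler` gives `b, θ, C`; `conv_rec` (Selberg/Mult.lean) gives
`log n * a n = ∑_{q ∣ n} a(n/q) log q * bb b q`, `bb b q = b q` for prime powers `q`, `0` otherwise;
multiplicativity of `a` as in the first lines of the proof of `equivalence` (Selberg/Equiv.lean).
For `n = 2^k`: `k * a(2^k) = ∑_{l=1}^k l * b(2^l) * a(2^(k-l))`.
Define `c 0 = 1`, `k * c k = - ∑_{l=1}^k l * b(2^l) * c (k-l)` (recursion; or let `c` be the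
coefficients of the inverse of the power series `A = ∑ a(2^k) X^k` and derive the recursion from
`X A' = (∑ l b(2^l) X^l) A`).
(1) `∑_{j=0}^k c j * a(2^(k-j)) = 0` for `k ≥ 1`: with the power series `A, C`,
`X (A C)' = (B - B) A C = 0`, so `A C` is constant `= 1` (characteristic zero).
(2) Bound: `r = 2^θ < √2`, `‖b(2^l)‖ ≤ C r^l`; choose `r < R < √2`, `R > 0`, `S = ∑ l (r/R)^l`.
If `‖c j‖ ≤ D R^j` for `j < k` then `k ‖c k‖ ≤ C D R^k S`, so `‖c k‖ ≤ D R^k` as soon as `k ≥ C S`;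
take `D` large enough for the finitely many smaller `k`.  Hence `∑ ‖c k‖ 2^(-k/2) < ∞`.
(3) `rel`: for `n ≥ 1` write `n = 2^K m`, `m` odd; `2^k ∣ n` iff `k ≤ K`, and
`a(n/2^k) = a(2^(K-k)) a(m)`, so the sum is `a(m) ∑_{k ≤ K} c k a(2^(K-k))`, which is `a(m)` for `K = 0`
and `0` for `K ≥ 1`.  (`K ≤ n`, so the range `k ≤ n` contains all the terms.)
`TwoRel.twist`: `a' n = a n n^w`, `c' k = c k (2^k)^w`, `w` purely imaginary:
`a'(n/2^k) (2^k)^w = a(n/2^k) n^w`, `‖c' k‖ = ‖c k‖`.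
-/

set_option autoImplicit false

namespace Pool.Agent.H11.SC

open Complex Pool.Agent.H11.Selberg

/-- multiplicativity of the coefficients -/
theorem twoc_mul (a : ℕ → ℂ) (F : ℂ → ℂ) (h : IsSelberg a F) (b : ℕ → ℂ)
    (hrec : ∀ n : ℕ, n ≠ 0 →
      (Real.log n : ℂ) * a n = ∑ q ∈ n.divisors, a (n / q) * ((Real.log q : ℂ) * bb b q))
    (m n : ℕ) (h0 : m * n ≠ 0) (hmn : Nat.Coprime m n) : a (m * n) = a m * a n :=
  mult_of_rec a (fun q => (Real.log q : ℂ) * bb b q) h.one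
    (fun q hq => by simp [bb, hq]) hrec (m * n) m n rfl h0 hmn

/-- the recursion at the prime `2` -/
theorem twoc_rec (a b : ℕ → ℂ)
    (hrec : ∀ n : ℕ, n ≠ 0 →
      (Real.log n : ℂ) * a n = ∑ q ∈ n.divisors, a (n / q) * ((Real.log q : ℂ) * bb b q))
    (k : ℕ) : (k : ℂ) * a (2 ^ k) =
      ∑ l ∈ Finset.range (k + 1), (l : ℂ) * b (2 ^ l) * a (2 ^ (k - l)) := by
  have h1 := hrec (2 ^ k) (by positivity)
  rw [Nat.sum_divisors_prime_pow Nat.prime_two] at h1
  have h2 : (Real.log 2 : ℂ) ≠ 0 := by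
    have := Real.log_pos (by norm_num : (1 : ℝ) < 2)
    exact_mod_cast this.ne'
  have h3 : ∀ j : ℕ, (Real.log ((2 ^ j : ℕ) : ℝ) : ℂ) = (j : ℂ) * (Real.log 2 : ℂ) := by
    intro j
    push_cast
    rw [Real.log_pow]
    push_cast
    ring
  apply mul_left_cancel₀ h2
  rw [h3] at h1
  calc (Real.log 2 : ℂ) * ((k : ℂ) * a (2 ^ k)) = (k : ℂ) * (Real.log 2 : ℂ) * a (2 ^ k) := by ring
    _ = _ := h1
    _ = _ := by
      rw [Finset.mul_sum]
      apply Finset.sum_congr rfl
      intro l hl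
      have hl' : l ≤ k := Nat.lt_succ_iff.mp (Finset.mem_range.mp hl)
      rw [h3, Nat.pow_div hl' (by norm_num)]
      rcases Nat.eq_zero_or_pos l with rfl | hl0
      · simp
      · have : IsPrimePow (2 ^ l) := Nat.prime_two.isPrimePow.pow hl0.ne'
        rw [bb, if_pos this]
        ring

open PowerSeries in
/-- the inverse power series and its recursion -/
theorem twoc_inv (A B : ℕ → ℂ) (hA : A 0 = 1)
    (hrec : ∀ k : ℕ, (k : ℂ) * A k = ∑ l ∈ Finset.range (k + 1), B l * A (k - l)) :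
    ∃ c : ℕ → ℂ, c 0 = 1 ∧
      (∀ k : ℕ, ∑ j ∈ Finset.range (k + 1), c j * A (k - j) = if k = 0 then 1 else 0) ∧
      (∀ k : ℕ, (k : ℂ) * c k = - ∑ l ∈ Finset.range (k + 1), B l * c (k - l)) := by
  set FA : PowerSeries ℂ := PowerSeries.mk A with hFA
  set FB : PowerSeries ℂ := PowerSeries.mk B with hFB
  have hc0 : constantCoeff (R := ℂ) FA = 1 := by
    rw [← coeff_zero_eq_constantCoeff_apply, hFA, coeff_mk, hA]
  have hne : constantCoeff (R := ℂ) FA ≠ 0 := by rw [hc0]; exact one_ne_zero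
  have hinv : FA * FA⁻¹ = 1 := PowerSeries.mul_inv_cancel FA hne
  have hFA0 : FA ≠ 0 := by
    intro h0
    rw [h0] at hc0
    simp at hc0
  have hcoX : ∀ (f : PowerSeries ℂ) (k : ℕ),
      coeff k (X * d⁄dX ℂ f) = (k : ℂ) * coeff k f := by
    intro f k
    rcases k with _ | k
    · simp
    · rw [coeff_succ_X_mul, coeff_derivative]
      push_cast
      ring
  have hmul : ∀ (f g : PowerSeries ℂ) (k : ℕ),
      coeff k (f * g) = ∑ l ∈ Finset.range (k + 1), coeff l f * coeff (k - l) g := by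
    intro f g k
    rw [coeff_mul, Finset.Nat.sum_antidiagonal_eq_sum_range_succ_mk]
  have hder : X * d⁄dX ℂ FA = FB * FA := by
    ext k
    rw [hcoX, hmul]
    simp only [hFA, hFB, coeff_mk]
    exact hrec k
  have hder2 : X * d⁄dX ℂ (FA⁻¹) = - (FB * FA⁻¹) := by
    have h1 : d⁄dX ℂ (FA * FA⁻¹) = 0 := by
      rw [hinv]
      exact derivative_one
    rw [Derivation.leibniz, smul_eq_mul, smul_eq_mul] at h1
    have h2 : FA * (X * d⁄dX ℂ (FA⁻¹) + FB * FA⁻¹) = 0 := by
      have : FA * (X * d⁄dX ℂ (FA⁻¹) + FB * FA⁻¹)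
          = X * (FA * d⁄dX ℂ (FA⁻¹) + FA⁻¹ * d⁄dX ℂ FA)
            + FA⁻¹ * (FB * FA - X * d⁄dX ℂ FA) := by ring
      rw [this, h1, hder]
      ring
    rcases mul_eq_zero.mp h2 with h3 | h3
    · exact absurd h3 hFA0
    · exact eq_neg_of_add_eq_zero_left h3
  refine ⟨fun k => coeff k (FA⁻¹), ?_, ?_, ?_⟩
  · change coeff 0 (FA⁻¹) = 1
    rw [coeff_zero_eq_constantCoeff_apply, constantCoeff_inv, hc0, inv_one]
  · intro k
    have h1 := hmul (FA⁻¹) FA k
    rw [mul_comm, hinv, coeff_one] at h1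
    rw [h1]
    apply Finset.sum_congr rfl
    intro j _
    rw [hFA, coeff_mk]
  · intro k
    have h1 := hcoX (FA⁻¹) k
    rw [hder2, map_neg, hmul] at h1
    rw [← h1]
    congr 1
    apply Finset.sum_congr rfl
    intro j _
    rw [hFB, coeff_mk]

/-- growth of the coefficients given by the recursion -/
theorem twoc_bound (c B : ℕ → ℂ) (C r R : ℝ) (hC : 0 ≤ C) (hr : 0 < r) (hrR : r < R)
    (hB : ∀ l : ℕ, ‖B l‖ ≤ C * l * r ^ l)
    (hrec : ∀ k : ℕ, (k : ℂ) * c k = - ∑ l ∈ Finset.range (k + 1), B l * c (k - l)) :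
    ∃ D : ℝ, ∀ k : ℕ, ‖c k‖ ≤ D * R ^ k := by
  have hR : 0 < R := hr.trans hrR
  set t : ℝ := r / R with ht
  have ht0 : 0 ≤ t := by positivity
  have ht1 : t < 1 := (div_lt_one hR).mpr hrR
  have hsum : Summable (fun l : ℕ => (l : ℝ) * t ^ l) := by
    have := summable_pow_mul_geometric_of_norm_lt_one (R := ℝ) 1 (r := t)
      (by rw [Real.norm_of_nonneg ht0]; exact ht1)
    simpa using this
  set S : ℝ := ∑' l : ℕ, (l : ℝ) * t ^ l with hS
  have hS0 : 0 ≤ S := tsum_nonneg (fun l => by positivity)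
  set K : ℕ := ⌈C * S⌉₊ with hK
  set D : ℝ := ∑ j ∈ Finset.range (K + 1), ‖c j‖ / R ^ j with hD
  have hD0 : 0 ≤ D := Finset.sum_nonneg (fun j _ => by positivity)
  refine ⟨D, ?_⟩
  intro k
  induction k using Nat.strong_induction_on with
  | _ k ih =>
    rcases Nat.lt_or_ge K k with hk | hk
    · have hk0 : (0 : ℝ) < k := by
        have : 0 < k := by omega
        exact_mod_cast this
      have h1 : (k : ℝ) * ‖c k‖ ≤ ∑ l ∈ Finset.range (k + 1), ‖B l‖ * ‖c (k - l)‖ := by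
        have : (k : ℝ) * ‖c k‖ = ‖(k : ℂ) * c k‖ := by simp
        rw [this, hrec k, norm_neg]
        refine (norm_sum_le _ _).trans (le_of_eq ?_)
        apply Finset.sum_congr rfl
        intro l _
        rw [norm_mul]
      have h2 : ∑ l ∈ Finset.range (k + 1), ‖B l‖ * ‖c (k - l)‖
          ≤ ∑ l ∈ Finset.range (k + 1), (C * D * R ^ k) * ((l : ℝ) * t ^ l) := by
        apply Finset.sum_le_sum
        intro l hl
        have hl' : l ≤ k := Nat.lt_succ_iff.mp (Finset.mem_range.mp hl)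
        rcases Nat.eq_zero_or_pos l with rfl | hl0
        · have := hB 0
          have h3 : ‖B 0‖ = 0 := le_antisymm (by simpa using this) (norm_nonneg _)
          rw [h3]
          simp
        · have h3 := ih (k - l) (by omega)
          have h4 : R ^ k = R ^ (k - l) * R ^ l := by
            rw [← pow_add, Nat.sub_add_cancel hl']
          have h5 : r ^ l = t ^ l * R ^ l := by
            rw [ht, div_pow]
            field_simp
          calc ‖B l‖ * ‖c (k - l)‖ ≤ (C * l * r ^ l) * (D * R ^ (k - l)) := by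
                apply mul_le_mul (hB l) h3 (norm_nonneg _)
                positivity
            _ = (C * D * R ^ k) * ((l : ℝ) * t ^ l) := by
                rw [h4, h5]
                ring
      have h6 : ∑ l ∈ Finset.range (k + 1), (C * D * R ^ k) * ((l : ℝ) * t ^ l)
          ≤ (C * D * R ^ k) * S := by
        rw [← Finset.mul_sum]
        apply mul_le_mul_of_nonneg_left _ (by positivity)
        exact hsum.sum_le_tsum _ (fun l _ => by positivity)
      have h7 : C * S ≤ k := by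
        have h8 : C * S ≤ (K : ℝ) := Nat.le_ceil _
        have h9 : (K : ℝ) ≤ k := by exact_mod_cast hk.le
        linarith
      have h10 : (k : ℝ) * ‖c k‖ ≤ k * (D * R ^ k) := by
        calc (k : ℝ) * ‖c k‖ ≤ (C * D * R ^ k) * S := h1.trans (h2.trans h6)
          _ = (C * S) * (D * R ^ k) := by ring
          _ ≤ k * (D * R ^ k) := by
            apply mul_le_mul_of_nonneg_right h7
            positivity
      exact le_of_mul_le_mul_left h10 hk0
    · have h1 : ‖c k‖ / R ^ k ≤ D := by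
        rw [hD]
        exact Finset.single_le_sum (f := fun j => ‖c j‖ / R ^ j)
          (fun j _ => by positivity) (Finset.mem_range.mpr (by omega))
      rwa [div_le_iff₀ (by positivity)] at h1

/-- the relation for all `n` from the relation for powers of `2` -/
theorem twoc_rel (a c : ℕ → ℂ)
    (hc : ∀ k : ℕ, ∑ j ∈ Finset.range (k + 1), c j * a (2 ^ (k - j)) = if k = 0 then 1 else 0)
    (hmul : ∀ m n : ℕ, m * n ≠ 0 → Nat.Coprime m n → a (m * n) = a m * a n)
    (n : ℕ) (hn : 1 ≤ n) : ∑ k ∈ Finset.range (n + 1),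
    (if 2 ^ k ∣ n then c k * a (n / 2 ^ k) else 0) = if Odd n then a n else 0 := by
  obtain ⟨K, m, hm, rfl⟩ := Nat.exists_eq_two_pow_mul_odd (by omega : n ≠ 0)
  have hm0 : 0 < m := hm.pos
  have hKn : K ≤ 2 ^ K * m := by
    have h1 : K < 2 ^ K := Nat.lt_two_pow_self
    nlinarith
  have hdiv : ∀ k : ℕ, 2 ^ k ∣ 2 ^ K * m ↔ k ≤ K := by
    intro k
    constructor
    · intro h
      have hcop : Nat.Coprime (2 ^ k) m := Nat.Coprime.pow_left k (Nat.coprime_two_left.mpr hm)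
      have h2 := hcop.dvd_of_dvd_mul_right h
      exact (Nat.pow_dvd_pow_iff_le_right (by norm_num)).mp h2
    · intro h
      exact (pow_dvd_pow 2 h).mul_right m
  have hstep : ∑ k ∈ Finset.range (2 ^ K * m + 1),
      (if 2 ^ k ∣ 2 ^ K * m then c k * a (2 ^ K * m / 2 ^ k) else 0)
      = ∑ k ∈ Finset.range (K + 1), c k * a (2 ^ (K - k)) * a m := by
    symm
    rw [← Finset.sum_subset (s₁ := Finset.range (K + 1))
      (s₂ := Finset.range (2 ^ K * m + 1))]
    · apply Finset.sum_congr rfl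
      intro k hk
      have hk' : k ≤ K := Nat.lt_succ_iff.mp (Finset.mem_range.mp hk)
      rw [if_pos ((hdiv k).mpr hk')]
      have h1 : 2 ^ K * m / 2 ^ k = 2 ^ (K - k) * m := by
        have : 2 ^ K * m = 2 ^ k * (2 ^ (K - k) * m) := by
          rw [← mul_assoc, ← pow_add, Nat.add_sub_cancel' hk']
        rw [this, Nat.mul_div_cancel_left _ (by positivity)]
      rw [h1, hmul (2 ^ (K - k)) m (by positivity)
        (Nat.Coprime.pow_left _ (Nat.coprime_two_left.mpr hm))]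
      ring
    · intro k hk
      rw [Finset.mem_range] at hk ⊢
      omega
    · intro k _ hk2
      rw [Finset.mem_range, not_lt] at hk2
      rw [if_neg]
      rw [hdiv]
      omega
  rw [hstep, ← Finset.sum_mul, hc K]
  rcases Nat.eq_zero_or_pos K with rfl | hK
  · simp [hm]
  · rw [if_neg hK.ne', zero_mul, if_neg]
    rw [Nat.not_odd_iff_even]
    exact (Nat.even_pow.mpr ⟨even_two, hK.ne'⟩).mul_right m

theorem two_rel_exists (a : ℕ → ℂ) (F : ℂ → ℂ) (h : IsSelberg a F) : ∃ c : ℕ → ℂ, TwoRel a c := by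
  obtain ⟨b, θ, C, hθ, hb, hE⟩ := h.euler
  have hE' : ∀ s : ℂ, 1 < s.re → HasProd
      (fun p : Nat.Primes => Complex.exp (∑' l : ℕ, b ((p : ℕ) ^ (l + 1)) *
        ((p : ℕ) : ℂ) ^ (-((l : ℂ) + 1) * s))) (LSeries a s) := fun s hs => by
    rw [← h.eq_LSeries s hs]; exact hE s hs
  have hrec := conv_rec a h.summable b θ C hθ hb hE'
  have hmul := twoc_mul a F h b hrec
  obtain ⟨c, hc0, hc1, hc2⟩ := twoc_inv (fun k => a (2 ^ k)) (fun l => (l : ℂ) * b (2 ^ l))
    (by simpa using h.one) (twoc_rec a b hrec)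
  set r : ℝ := (2 : ℝ) ^ θ with hr
  set R : ℝ := (2 : ℝ) ^ ((θ + 1 / 2) / 2) with hR
  have hr0 : 0 < r := Real.rpow_pos_of_pos (by norm_num) _
  have hR0 : 0 < R := Real.rpow_pos_of_pos (by norm_num) _
  have hrR : r < R := Real.rpow_lt_rpow_of_exponent_lt (by norm_num) (by linarith)
  have hC0 : 0 ≤ C := by
    have h1 := (norm_nonneg _).trans (hb 2 Nat.prime_two 1 le_rfl)
    have h2 : (0 : ℝ) < (((2 : ℕ) : ℝ) ^ 1) ^ θ := by positivity
    by_contra h3
    push Not at h3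
    nlinarith
  have hB : ∀ l : ℕ, ‖(l : ℂ) * b (2 ^ l)‖ ≤ C * l * r ^ l := by
    intro l
    rcases Nat.eq_zero_or_pos l with rfl | hl
    · simp
    · have h1 := hb 2 Nat.prime_two l hl
      have h2 : (((2 : ℕ) : ℝ) ^ l) ^ θ = r ^ l := by
        rw [hr, Nat.cast_ofNat, ← Real.rpow_natCast, ← Real.rpow_natCast, ← Real.rpow_mul (by norm_num),
          ← Real.rpow_mul (by norm_num), mul_comm]
      rw [h2] at h1
      rw [norm_mul, Complex.norm_natCast]
      calc (l : ℝ) * ‖b (2 ^ l)‖ ≤ l * (C * r ^ l) :=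
            mul_le_mul_of_nonneg_left h1 (Nat.cast_nonneg l)
        _ = C * l * r ^ l := by ring
  obtain ⟨D, hD⟩ := twoc_bound c _ C r R hC0 hr0 hrR hB hc2
  refine ⟨c, hc0, ?_, ?_⟩
  · set ρ : ℝ := R * (2 : ℝ) ^ (-(1 / 2) : ℝ) with hρ
    have hρ0 : 0 ≤ ρ := by positivity
    have hρ1 : ρ < 1 := by
      rw [hρ, hR, ← Real.rpow_add (by norm_num)]
      apply Real.rpow_lt_one_of_one_lt_of_neg (by norm_num)
      linarith
    apply Summable.of_nonneg_of_le (fun k => by positivity) (fun k => ?_)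
      ((summable_geometric_of_lt_one hρ0 hρ1).mul_left D)
    have h1 : (2 : ℝ) ^ (-((k : ℝ) / 2)) = ((2 : ℝ) ^ (-(1 / 2) : ℝ)) ^ k := by
      rw [← Real.rpow_natCast, ← Real.rpow_mul (by norm_num)]
      congr 1
      ring
    rw [h1, hρ, mul_pow, ← mul_assoc]
    exact mul_le_mul_of_nonneg_right (hD k) (by positivity)
  · intro n hn
    exact twoc_rel a c hc1 hmul n hn

theorem TwoRel.twist {a c : ℕ → ℂ} (h : TwoRel a c) (δ : ℝ) :
    ∃ c' : ℕ → ℂ, TwoRel (fun n => a n * (n : ℂ) ^ (-(δ * I) : ℂ)) c' := by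
  refine ⟨fun k => c k * ((2 ^ k : ℕ) : ℂ) ^ (-(δ * I) : ℂ), ?_, ?_, ?_⟩
  · simp [h.zero]
  · refine h.sum.congr (fun k => ?_)
    have h1 : ‖((2 ^ k : ℕ) : ℂ) ^ (-(δ * I) : ℂ)‖ = 1 := by
      rw [Complex.norm_natCast_cpow_of_pos (by positivity)]
      simp
    simp only [norm_mul, h1, mul_one]
  · intro n hn
    have h2 := h.rel n hn
    have h3 : ∀ k : ℕ, (if 2 ^ k ∣ n then c k * ((2 ^ k : ℕ) : ℂ) ^ (-(δ * I) : ℂ) *
        (a (n / 2 ^ k) * ((n / 2 ^ k : ℕ) : ℂ) ^ (-(δ * I) : ℂ)) else 0)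
        = (if 2 ^ k ∣ n then c k * a (n / 2 ^ k) else 0) * (n : ℂ) ^ (-(δ * I) : ℂ) := by
      intro k
      split_ifs with hk
      · obtain ⟨m, rfl⟩ := hk
        rw [Nat.mul_div_cancel_left _ (by positivity), Nat.cast_mul (2 ^ k) m,
          Complex.natCast_mul_natCast_cpow]
        ring
      · rw [zero_mul]
    simp only [h3]
    rw [← Finset.sum_mul, h2]
    split_ifs <;> simp

end Pool.Agent.H11.SC
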