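import Mathlib
import Pool.Agent.H11.SC.Norm

/-!
# NORM2: `normalise` with the explicit coefficients (from the proof of `normalise`)
-/

set_option autoImplicit false

namespace Pool.Agent.H11.SC

open Complex Pool.Agent.H11.Selberg

theorem normalise2 (a : ℕ → ℂ) (F : ℂ → ℂ) (hS : IsSelberg a F) (G : ℂ → ℂ)
    (hG : Differentiable ℂ G) (hGF : ∀ s, s ≠ 1 → G s = F s)
    (Q : ℝ) (r : ℕ) (lam : Fin r → ℝ) (mu : Fin r → ℂ) (ε : ℂ)
    (hQ : 0 < Q) (hlam : ∀ j, 0 < lam j) (hmu : ∀ j, 0 ≤ (mu j).re) (hε : ‖ε‖ = 1)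
    (hfe : ∀ s : ℂ, 0 < s.re → s.re < 1 →
      completed Q lam mu F s =
        ε * (starRingEnd ℂ) (completed Q lam mu F (1 - (starRingEnd ℂ) s)))
    (hdeg : ∑ j, lam j = 1) :
    ∃ (δ : ℝ) (F' : ℂ → ℂ) (mu' : Fin r → ℂ) (ε' : ℂ),
      FEq (fun n => a n * (n : ℂ) ^ (-(δ * I) : ℂ)) F' Q lam mu' ε' ∧
      ∀ n : ℕ, 1 ≤ n → ‖a n * (n : ℂ) ^ (-(δ * I) : ℂ)‖ = ‖a n‖ := by
  set δ : ℝ := -∑ j, (mu j).im with hδ
  have hQ0 : (Q : ℂ) ≠ 0 := by exact_mod_cast hQ.ne'
  have hnorm : ∀ n : ℕ, 1 ≤ n → ‖a n * (n : ℂ) ^ (-(δ * I) : ℂ)‖ = ‖a n‖ := by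
    intro n hn
    rw [norm_mul, norm_natCast_cpow_of_pos (by omega)]
    simp
  refine ⟨δ, fun s => G (s + δ * I),
    fun j => mu j + lam j * (δ * I), (Q : ℂ) ^ (-(2 * δ * I) : ℂ) * ε, ?_, hnorm⟩
  have hsum : ∀ s : ℂ, 1 < s.re →
      LSeriesSummable (fun n => a n * (n : ℂ) ^ (-(δ * I) : ℂ)) s := by
    intro s hs
    have h1 : 1 < (s + δ * I).re := by simpa using hs
    have h2 := hS.summable _ h1
    unfold LSeriesSummable at h2 ⊢
    convert h2 using 1
    funext n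
    exact term_shift a δ s n
  refine
    { diff := ?_
      order := ?_
      summable := hsum
      eqL := ?_
      ram := ?_
      one := ?_
      Qpos := hQ
      lampos := hlam
      mure := ?_
      eps := ?_
      feq := ?_
      deg := hdeg
      shift := ?_ }
  · exact hG.comp (by fun_prop : Differentiable ℂ fun s : ℂ => s + δ * I)
  · obtain ⟨m, G0, -, hb, h0⟩ := hS.continuation
    exact norm_order hG hGF hb h0 δ
  · intro s hs
    have h1 : 1 < (s + δ * I).re := by simpa using hs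
    have hne : s + δ * I ≠ 1 := by
      intro h
      rw [h] at h1
      simp at h1
    show G (s + δ * I) = _
    rw [hGF _ hne, hS.eq_LSeries _ h1]
    unfold LSeries
    exact (tsum_congr fun n => term_shift a δ s n).symm
  · intro e he
    obtain ⟨C, hC⟩ := hS.ramanujan e he
    refine ⟨C, fun n hn => ?_⟩
    show ‖a n * (n : ℂ) ^ (-(δ * I) : ℂ)‖ ≤ _
    rw [hnorm n hn]
    exact hC n hn
  · show a 1 * ((1 : ℕ) : ℂ) ^ (-(δ * I) : ℂ) = 1
    rw [hS.one]
    simp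
  · intro j
    have := hmu j
    simpa using this
  · rw [norm_mul, hε, norm_cpow_eq_rpow_re_of_pos hQ]
    simp
  · intro s hs0 hs1
    have hcs : (1 - (starRingEnd ℂ) s).re < 1 := by simpa using hs0
    have e1 := completed_shift Q lam mu F G hQ hGF δ s hs1
    have e2 := completed_shift Q lam mu F G hQ hGF δ (1 - (starRingEnd ℂ) s) hcs
    have h1 := hfe (s + δ * I) (by simpa using hs0) (by simpa using hs1)
    have h2 : 1 - (starRingEnd ℂ) (s + δ * I) = 1 - (starRingEnd ℂ) s + δ * I := by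
      simp only [map_add, map_mul, conj_ofReal, conj_I]
      ring
    rw [h2, e1, e2, map_mul] at h1
    have h3 : (starRingEnd ℂ) ((Q : ℂ) ^ (δ * I : ℂ)) = (Q : ℂ) ^ (-(δ * I) : ℂ) := by
      have harg : (Q : ℂ).arg ≠ Real.pi := by
        rw [arg_ofReal_of_nonneg hQ.le]
        exact Real.pi_pos.ne
      have h := cpow_conj (Q : ℂ) (δ * I) harg
      rw [conj_ofReal] at h
      rw [← h]
      simp
    rw [h3] at h1
    have h4 : (Q : ℂ) ^ (-(δ * I) : ℂ) * (Q : ℂ) ^ (δ * I : ℂ) = 1 := by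
      rw [← cpow_add _ _ hQ0]
      simp
    have h5 : (Q : ℂ) ^ (-(2 * δ * I) : ℂ) = (Q : ℂ) ^ (-(δ * I) : ℂ) * (Q : ℂ) ^ (-(δ * I) : ℂ) := by
      rw [← cpow_add _ _ hQ0]
      congr 1
      ring
    rw [h5]
    linear_combination (Q : ℂ) ^ (-(δ * I) : ℂ) * h1 -
      (completed Q lam (fun j => mu j + lam j * (δ * I)) (fun s => G (s + δ * I)) s) * h4
  · have h1 : ∀ j, (mu j + lam j * (δ * I)).im = (mu j).im + lam j * δ := by
      intro j; simp
    show ∑ j, (mu j + lam j * (δ * I)).im = 0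
    simp only [h1]
    rw [Finset.sum_add_distrib, ← Finset.sum_mul, hdeg, hδ]
    ring

end Pool.Agent.H11.SC
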