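import Mathlib

/-!
# GEO4: geometry of one step for `q = 4`

`z = x + iy`, `|x| ≤ 1/2`, `s = 1/2 - |x| ∈ [0, 1/2]`, `B1 ≥ 1`, `0 < y ≤ 1/(8 B1)`, and
`y < B1 ‖z - 1/2‖²`, `y < B1 ‖z + 1/2‖²` (for `x ≥ 0` use the first, for `x ≤ 0` the second):
`y < B1 (s² + y²)`, `B1 y² ≤ y/8`, so `s² > 7y/(8 B1) ≥ y/(2 B1)`.
`4‖z‖² = (1 - 2s)² + 4y²`, `4y² ≤ 4y (8/7) B1 s² ≤ (4/7) s² ≤ s²`, so
`4‖z‖² ≤ 1 - 4s + 5s² ≤ 1 - (3/2)s` and `Im(-1/(4z)) = y/(4‖z‖²) ≥ y/(1 - (3/2)s) ≥ y (1 + (3/2)s)`.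

`pot_low`, `pot_high`: `(1 + s/4)^4 ≤ 1 + (3/2)s` for `0 ≤ s ≤ 1/2`, so
`y'^(1/4) ≥ y^(1/4) (1 + s/4)`, and
`y^(-1/4) - y'^(-1/4) ≥ y^(-1/4) (1 - 1/(1 + s/4)) ≥ y^(-1/4) s/5`.

`geo4_path`: `v ≥ 10^4`, `y ≤ 1/v`, `y ≤ (1/v) ‖z ∓ 1/2‖²`, `Im(-1/(4z)) ≤ 1/v`.  Let
`t = Re(-1/(4z)) = -x/(4(x²+y²))`.  Then `|t| > 1/2`, that is `|x| > 2(x²+y²)`, that is
`2|x|s > 2y²`: we have `y ≤ (s²+y²)/v`, so `y ≤ 1.01 s²/v` and `s > 0`.
If `|x| ≥ 1/4`: `2|x| s ≥ s/2 > 2 y²`.  If `|x| < 1/4` (`s > 1/4`): `y/(4(x²+y²)) ≤ 1/v` gives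
`x² + y² ≥ vy/4`, `x² ≥ vy/8 ≥ 1250 y`, `|x| > 4y²` (as `y ≤ 10^(-4)`), and `2|x|s ≥ |x|/2 > 2y²`.
-/

set_option autoImplicit false

namespace Pool.Agent.H11.SC

open Complex

theorem geo4_im (z : ℂ) : (-1 / (4 * z)).im = z.im / (4 * (z.re ^ 2 + z.im ^ 2)) := by
  have h1 : (-1 / (4 * z)) = ((1 / 4 : ℝ) : ℂ) * (-z⁻¹) := by
    push_cast
    rw [neg_div, ← one_div_mul_one_div]
    simp
  rw [h1, Complex.im_ofReal_mul, Complex.neg_im, Complex.inv_im, Complex.normSq_apply]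
  by_cases hz : z.re ^ 2 + z.im ^ 2 = 0
  · have : z.re * z.re + z.im * z.im = 0 := by rw [← hz]; ring
    rw [this, hz]; simp
  · have : z.re * z.re + z.im * z.im = z.re ^ 2 + z.im ^ 2 := by ring
    rw [this]
    field_simp

theorem geo4_re (z : ℂ) : (-1 / (4 * z)).re = -z.re / (4 * (z.re ^ 2 + z.im ^ 2)) := by
  have h1 : (-1 / (4 * z)) = ((1 / 4 : ℝ) : ℂ) * (-z⁻¹) := by
    push_cast
    rw [neg_div, ← one_div_mul_one_div]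
    simp
  rw [h1, Complex.re_ofReal_mul, Complex.neg_re, Complex.inv_re, Complex.normSq_apply]
  by_cases hz : z.re ^ 2 + z.im ^ 2 = 0
  · have : z.re * z.re + z.im * z.im = 0 := by rw [← hz]; ring
    rw [this, hz]; simp
  · have : z.re * z.re + z.im * z.im = z.re ^ 2 + z.im ^ 2 := by ring
    rw [this]
    field_simp

theorem geo4_nm (z : ℂ) : ‖z - 1 / 2‖ ^ 2 = (z.re - 1 / 2) ^ 2 + z.im ^ 2 := by
  rw [Complex.sq_norm, Complex.normSq_apply]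
  have h1 : (z - 1 / 2).re = z.re - 1 / 2 := by simp
  have h2 : (z - 1 / 2).im = z.im := by simp
  rw [h1, h2]; ring

theorem geo4_np (z : ℂ) : ‖z + 1 / 2‖ ^ 2 = (z.re + 1 / 2) ^ 2 + z.im ^ 2 := by
  rw [Complex.sq_norm, Complex.normSq_apply]
  have h1 : (z + 1 / 2).re = z.re + 1 / 2 := by simp
  have h2 : (z + 1 / 2).im = z.im := by simp
  rw [h1, h2]; ring

theorem geo4_step (B1 : ℝ) (hB1 : 1 ≤ B1) (z : ℂ) (hy : 0 < z.im) (hy1 : z.im ≤ 1 / (8 * B1))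
    (hx : |z.re| ≤ 1 / 2) (h1 : z.im < B1 * ‖z - 1 / 2‖ ^ 2) (h2 : z.im < B1 * ‖z + 1 / 2‖ ^ 2) :
    Real.sqrt (z.im / (2 * B1)) ≤ 1 / 2 - |z.re| ∧
      z.im * (1 + 3 / 2 * (1 / 2 - |z.re|)) ≤ (-1 / (4 * z)).im := by
  have hB0 : 0 < B1 := by linarith
  rw [geo4_nm] at h1
  rw [geo4_np] at h2
  rw [geo4_im]
  have hx2 : z.re ^ 2 = |z.re| ^ 2 := (sq_abs _).symm
  have hm : z.im < B1 * ((1 / 2 - |z.re|) ^ 2 + z.im ^ 2) := by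
    rcases le_total 0 z.re with h | h
    · rw [abs_of_nonneg h]
      have : (1 / 2 - z.re) ^ 2 = (z.re - 1 / 2) ^ 2 := by ring
      rw [this]; exact h1
    · rw [abs_of_nonpos h]
      have : (1 / 2 - -z.re) ^ 2 = (z.re + 1 / 2) ^ 2 := by ring
      rw [this]; exact h2
  rw [hx2]
  have ha0 : 0 ≤ |z.re| := abs_nonneg _
  generalize |z.re| = a at *
  generalize z.im = y at *
  have hBy : B1 * y ≤ 1 / 8 := by
    rw [le_div_iff₀ (by positivity)] at hy1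
    linarith
  set s : ℝ := 1 / 2 - a with hs
  have hs0 : 0 ≤ s := by linarith
  have hs1 : s ≤ 1 / 2 := by linarith
  have hk : 7 / 8 * y < B1 * s ^ 2 := by nlinarith
  refine ⟨?_, ?_⟩
  · rw [Real.sqrt_le_iff]
    refine ⟨hs0, ?_⟩
    rw [div_le_iff₀ (by positivity)]
    nlinarith
  · have ha : a = 1 / 2 - s := by linarith
    have hpos : 0 < 4 * (a ^ 2 + y ^ 2) := by positivity
    rw [le_div_iff₀ hpos]
    have h4 : 4 * y ^ 2 ≤ s ^ 2 := by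
      have e1 : y ≤ 8 / 7 * (B1 * s ^ 2) := by linarith
      have e2 : y * y ≤ y * (8 / 7 * (B1 * s ^ 2)) := mul_le_mul_of_nonneg_left e1 hy.le
      have e3 : y * (8 / 7 * (B1 * s ^ 2)) = 8 / 7 * (B1 * y) * s ^ 2 := by ring
      have e4 : (B1 * y) * s ^ 2 ≤ 1 / 8 * s ^ 2 := mul_le_mul_of_nonneg_right hBy (sq_nonneg _)
      nlinarith [sq_nonneg s]
    have h5 : 4 * (a ^ 2 + y ^ 2) ≤ 1 - 3 / 2 * s := by
      rw [ha]
      nlinarith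
    have h6 : (1 + 3 / 2 * s) * (4 * (a ^ 2 + y ^ 2)) ≤ 1 := by
      have e5 : (1 + 3 / 2 * s) * (4 * (a ^ 2 + y ^ 2)) ≤ (1 + 3 / 2 * s) * (1 - 3 / 2 * s) :=
        mul_le_mul_of_nonneg_left h5 (by positivity)
      nlinarith [sq_nonneg s]
    calc y * (1 + 3 / 2 * s) * (4 * (a ^ 2 + y ^ 2)) = y * ((1 + 3 / 2 * s) * (4 * (a ^ 2 + y ^ 2))) := by
          ring
      _ ≤ y * 1 := mul_le_mul_of_nonneg_left h6 hy.le
      _ = y := mul_one y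

theorem pot_pow4 (s : ℝ) (hs : 0 ≤ s) (hs1 : s ≤ 1 / 2) : (1 + s / 4) ^ 4 ≤ 1 + 3 / 2 * s := by
  have h2 : s ^ 2 ≤ 1 / 2 * s := by nlinarith
  have h3 : s ^ 3 ≤ 1 / 4 * s := by nlinarith
  have h4 : s ^ 4 ≤ 1 / 8 * s := by nlinarith
  nlinarith

theorem pot_main (y y' s : ℝ) (hy : 0 < y) (hs : 0 ≤ s) (hs1 : s ≤ 1 / 2)
    (h : y * (1 + 3 / 2 * s) ≤ y') : y ^ (1 / 4 : ℝ) * (1 + s / 4) ≤ y' ^ (1 / 4 : ℝ) := by
  have h1 : y * (1 + s / 4) ^ 4 ≤ y' :=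
    (mul_le_mul_of_nonneg_left (pot_pow4 s hs hs1) hy.le).trans h
  have h2 : (y * (1 + s / 4) ^ 4) ^ (1 / 4 : ℝ) ≤ y' ^ (1 / 4 : ℝ) :=
    Real.rpow_le_rpow (by positivity) h1 (by norm_num)
  rw [Real.mul_rpow hy.le (by positivity), ← Real.rpow_natCast, ← Real.rpow_mul (by positivity)] at h2
  norm_num at h2
  norm_num
  exact h2

theorem pot_high (y y' s : ℝ) (hy : 0 < y) (hs : 0 ≤ s) (hs1 : s ≤ 1 / 2)
    (h : y * (1 + 3 / 2 * s) ≤ y') :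
    y ^ (1 / 4 : ℝ) * s / 4 ≤ y' ^ (1 / 4 : ℝ) - y ^ (1 / 4 : ℝ) := by
  have := pot_main y y' s hy hs hs1 h
  linarith

theorem pot_low (y y' s : ℝ) (hy : 0 < y) (hs : 0 ≤ s) (hs1 : s ≤ 1 / 2)
    (h : y * (1 + 3 / 2 * s) ≤ y') :
    y ^ (-(1 / 4) : ℝ) * s / 5 ≤ y ^ (-(1 / 4) : ℝ) - y' ^ (-(1 / 4) : ℝ) := by
  have h0 := pot_main y y' s hy hs hs1 h
  have hy' : 0 < y' := lt_of_lt_of_le (by positivity) h
  have p1 : 0 < y ^ (1 / 4 : ℝ) := Real.rpow_pos_of_pos hy _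
  have p2 : 0 < y' ^ (1 / 4 : ℝ) := Real.rpow_pos_of_pos hy' _
  rw [Real.rpow_neg hy.le, Real.rpow_neg hy'.le]
  generalize y ^ (1 / 4 : ℝ) = A at *
  generalize y' ^ (1 / 4 : ℝ) = A' at *
  have h1 : A'⁻¹ ≤ (A * (1 + s / 4))⁻¹ := inv_anti₀ (by positivity) h0
  have h2 : (A * (1 + s / 4))⁻¹ ≤ A⁻¹ * (1 - s / 5) := by
    rw [mul_inv]
    apply mul_le_mul_of_nonneg_left _ (by positivity)
    rw [inv_le_iff_one_le_mul₀ (by positivity)]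
    nlinarith
  have h3 : A⁻¹ * s / 5 = A⁻¹ - A⁻¹ * (1 - s / 5) := by ring
  rw [h3]
  linarith

theorem geo4_path (v : ℝ) (hv : 10 ^ 4 ≤ v) (z : ℂ) (hy : 0 < z.im) (hyv : z.im ≤ 1 / v)
    (hx : |z.re| ≤ 1 / 2) (h1 : z.im ≤ 1 / v * ‖z - 1 / 2‖ ^ 2)
    (h2 : z.im ≤ 1 / v * ‖z + 1 / 2‖ ^ 2) (hw : (-1 / (4 * z)).im ≤ 1 / v) :
    1 / 2 < |(-1 / (4 * z)).re| := by
  have hv0 : 0 < v := by linarith
  rw [geo4_nm] at h1
  rw [geo4_np] at h2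
  rw [geo4_im] at hw
  rw [geo4_re]
  have hx2 : z.re ^ 2 = |z.re| ^ 2 := (sq_abs _).symm
  have hD : 0 < 4 * (z.re ^ 2 + z.im ^ 2) := by positivity
  rw [abs_div, abs_neg, abs_of_pos hD]
  have hm : v * z.im ≤ (1 / 2 - |z.re|) ^ 2 + z.im ^ 2 := by
    rcases le_total 0 z.re with h | h
    · rw [abs_of_nonneg h]
      have : (1 / 2 - z.re) ^ 2 = (z.re - 1 / 2) ^ 2 := by ring
      rw [this]
      rw [one_div, ← div_eq_inv_mul, le_div_iff₀ hv0] at h1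
      linarith
    · rw [abs_of_nonpos h]
      have : (1 / 2 - -z.re) ^ 2 = (z.re + 1 / 2) ^ 2 := by ring
      rw [this]
      rw [one_div, ← div_eq_inv_mul, le_div_iff₀ hv0] at h2
      linarith
  rw [hx2] at hw hD
  rw [hx2]
  have ha0 : 0 ≤ |z.re| := abs_nonneg _
  clear hx2
  generalize |z.re| = a at *
  generalize z.im = y at *
  have hvy : v * y ≤ 1 := by
    rw [le_div_iff₀ hv0] at hyv
    linarith
  have hy4 : 10 ^ 4 * y ≤ 1 := by nlinarith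
  rw [lt_div_iff₀ hD]
  set s : ℝ := 1 / 2 - a with hs
  have hs0 : 0 ≤ s := by linarith
  have ha : a = 1 / 2 - s := by linarith
  have hy2 : 10 ^ 4 * y ^ 2 ≤ y := by nlinarith
  have hmm : 10 ^ 4 * y ≤ s ^ 2 + y ^ 2 := by nlinarith
  -- goal : 2 (a² + y²) < a
  suffices h : 2 * y ^ 2 < 2 * a * s by
    have : a * s = a / 2 - a ^ 2 := by rw [hs]; ring
    nlinarith
  rcases le_or_gt (1 / 4) a with h4 | h4
  · have e1 : 9 * 10 ^ 3 * y ≤ s ^ 2 := by nlinarith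
    have e2 : s ≤ 1 / 4 := by linarith
    have e3 : 0 < s ^ 2 := by nlinarith
    have e4 : 0 < s := by
      rcases hs0.lt_or_eq with h | h
      · exact h
      · rw [← h] at e3; norm_num at e3
    have e5 : 2 * y ^ 2 ≤ s ^ 2 := by nlinarith
    nlinarith
  · have e1 : 1 / 4 < s := by linarith
    rw [div_le_div_iff₀ hD hv0] at hw
    have e2 : 10 ^ 3 * y ≤ a ^ 2 := by nlinarith
    have e3 : (4 * y ^ 2) ^ 2 < a ^ 2 := by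
      have : (4 * y ^ 2) ^ 2 = 16 * (y * y ^ 3) := by ring
      rw [this]
      have e5 : y ^ 3 ≤ 1 := pow_le_one₀ hy.le (by linarith)
      have e6 : y * y ^ 3 ≤ y * 1 := mul_le_mul_of_nonneg_left e5 hy.le
      nlinarith
    have e4 : 4 * y ^ 2 < a := lt_of_pow_lt_pow_left₀ 2 ha0 e3
    have e5 : a * (1 / 4) ≤ a * s := mul_le_mul_of_nonneg_left e1.le ha0
    nlinarith

/-- the height of the point before the last one -/
theorem geo4_last (v : ℝ) (hv : 10 ^ 4 ≤ v) (z : ℂ) (hy : 0 < z.im) (k : ℤ) (n : ℕ) (hn : 2 ≤ n)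
    (hk : (n : ℝ) - 1 ≤ |(k : ℝ)|) (hw : -1 / (4 * z) = v * I + k) :
    z.im ≤ v / ((n : ℝ) - 1) ^ 2 := by
  have hv0 : 0 < v := by linarith
  have hn2 : (2 : ℝ) ≤ (n : ℝ) := by exact_mod_cast hn
  have hn1 : 0 < (n : ℝ) - 1 := by linarith
  have hz0 : z ≠ 0 := by
    intro h
    rw [h] at hy
    simp at hy
  have hw0 : (v * I + k : ℂ) ≠ 0 := by
    rw [← hw]
    exact div_ne_zero (by norm_num) (mul_ne_zero (by norm_num) hz0)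
  have hz : z = -1 / (4 * (v * I + k : ℂ)) := by
    rw [← hw]
    field_simp
  have him : z.im = v / (4 * ((k : ℝ) ^ 2 + v ^ 2)) := by
    rw [hz, geo4_im]
    have h1 : (v * I + k : ℂ).im = v := by simp
    have h2 : (v * I + k : ℂ).re = (k : ℝ) := by simp
    rw [h1, h2]
  rw [him]
  apply div_le_div_of_nonneg_left hv0.le (by positivity)
  have h3 : ((n : ℝ) - 1) ^ 2 ≤ |(k : ℝ)| ^ 2 := pow_le_pow_left₀ hn1.le hk 2
  rw [sq_abs] at h3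
  nlinarith [sq_nonneg v, sq_nonneg (k : ℝ)]

end Pool.Agent.H11.SC
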