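import Mathlib
import Pool.Agent.H11.SC.Sup
import Pool.Agent.H11.SC4.Geo4

/-!
# CLIMB: an upper bound by climbing with a potential

Fix `y0 ∈ (0, 1]`.  `K0 = sSup {Ψ z : Im z ≥ y0}` (finite by `h.top`, `≥ 0`), `M0` = bound of `Ψ` for
`Im ≥ 1/(8 B1)`, `M' = max M0 M`.  CLAIM: `Ψ z + U(Im z) ≤ M' + K0/4 + Umax` for all `z` with
`Im z ≥ y0`.  Induction on `j` for `Im z ≥ (1/(8 B1)) κ^(-j)`, `κ = 1 + (3/2) √(y0/(2 B1)) > 1`.
`Im z ≥ 1/(8 B1)`: clear (`K0 ≥ 0`).  Otherwise shift `z` by an integer to `|Re z| ≤ 1/2`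
(`Approx.shift`).  If `B1 ‖z - 1/2‖² ≤ Im z`, `hdeep` with `K = K0` (`Im z' ≥ Im z ≥ y0`) gives
`Ψ z ≤ M + K0/4`.  If `B1 ‖z + 1/2‖² ≤ Im z`, the same for `z + 1` (`h.per`).  Otherwise `hstep`:
`Ψ z + U(Im z) ≤ Ψ z' + U(Im z')`, `z' = -1/(4z)`, and by `geo4_step`
`Im z' ≥ Im z (1 + (3/2) s)`, `s ≥ √(Im z/(2 B1)) ≥ √(y0/(2 B1))`, so the induction hypothesis applies.
So every `z` with `Im z ≥ y0` has `Ψ z ≤ M' + K0/4 + Umax - U(Im z) ≤ M' + K0/4 + Umax - U y0`
(`U` monotone); the supremum gives `K0 ≤ (4/3)(M' + Umax - U y0)`.  For `z` with `Im z = y0` this is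
the assertion with `M3 = (4/3)(M' + Umax)`.
-/

set_option autoImplicit false

namespace Pool.Agent.H11.SC

open Complex

theorem climb (Ψ : ℂ → ℝ) (h : Approx 4 Ψ) (B1 M : ℝ) (hB1 : 1 ≤ B1)
    (hdeep : ∀ z : ℂ, 0 < z.im → z.im ≤ 1 → B1 * ‖z - 1 / 2‖ ^ 2 ≤ z.im →
      ∀ K : ℝ, (∀ z' : ℂ, z.im ≤ z'.im → Ψ z' ≤ K) → Ψ z ≤ M + K / 4)
    (U : ℝ → ℝ) (Umax : ℝ) (hU : ∀ y : ℝ, 0 < y → U y ≤ Umax)
    (hmono : ∀ y y' : ℝ, 0 < y → y ≤ y' → U y ≤ U y')
    (hstep : ∀ z : ℂ, 0 < z.im → z.im ≤ 1 / (8 * B1) → |z.re| ≤ 1 / 2 →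
      z.im < B1 * ‖z - 1 / 2‖ ^ 2 → z.im < B1 * ‖z + 1 / 2‖ ^ 2 →
      Ψ z ≤ Ψ (-1 / (4 * z)) + U (-1 / (4 * z)).im - U z.im) :
    ∃ M3 : ℝ, ∀ z : ℂ, 0 < z.im → z.im ≤ 1 → Ψ z ≤ M3 - 4 / 3 * U z.im := by
  have hB0 : 0 < B1 := by linarith
  have h8 : 0 < 1 / (8 * B1) := by positivity
  have h81 : 1 / (8 * B1) ≤ 1 := by
    rw [div_le_one (by positivity)]
    linarith
  obtain ⟨M0, hM0⟩ := h.top (1 / (8 * B1)) h8
  refine ⟨4 / 3 * (max M0 M + Umax), ?_⟩
  intro z0 hz0 hz01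
  have hle0 : M0 ≤ max M0 M := le_max_left _ _
  have hle1 : M ≤ max M0 M := le_max_right _ _
  generalize max M0 M = M' at hle0 hle1 ⊢
  obtain ⟨My, hMy⟩ := h.top z0.im hz0
  set S : Set ℝ := {t | ∃ z : ℂ, z0.im ≤ z.im ∧ Ψ z = t} with hS
  have hbdd : BddAbove S := by
    refine ⟨My, ?_⟩
    rintro t ⟨z, hz, rfl⟩
    exact hMy z hz
  have hmem : ∀ z : ℂ, z0.im ≤ z.im → Ψ z ≤ sSup S := fun z hz => le_csSup hbdd ⟨z, hz, rfl⟩
  have hne : S.Nonempty := ⟨Ψ z0, z0, le_refl _, rfl⟩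
  have hK0 : 0 ≤ sSup S := (h.nonneg z0 hz0).trans (hmem z0 (le_refl _))
  set K0 : ℝ := sSup S with hK0def
  set κ : ℝ := 1 + 3 / 2 * Real.sqrt (z0.im / (2 * B1)) with hκ
  have hs0 : 0 < Real.sqrt (z0.im / (2 * B1)) := Real.sqrt_pos.2 (by positivity)
  have hκ1 : 1 < κ := by rw [hκ]; linarith
  have hκ0 : 0 < κ := by linarith
  have key : ∀ n : ℕ, ∀ z : ℂ, z0.im ≤ z.im → 1 / (8 * B1) ≤ z.im * κ ^ n →
      Ψ z + U z.im ≤ M' + K0 / 4 + Umax := by
    intro n
    induction n with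
    | zero =>
      intro z hz hz2
      rw [pow_zero, mul_one] at hz2
      have h1 := hM0 z hz2
      have h2 := hU z.im (by linarith)
      linarith
    | succ n ih =>
      intro z hz hz2
      have hzpos : 0 < z.im := lt_of_lt_of_le hz0 hz
      have hUz := hU z.im hzpos
      rcases le_or_gt (1 / (8 * B1)) z.im with h1 | h1
      · have h2 := hM0 z h1
        linarith
      · have hz1 : z.im ≤ 1 := h1.le.trans h81
        set w : ℂ := z + ((-round z.re : ℤ) : ℂ) with hw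
        have hwim : w.im = z.im := by
          rw [hw]
          simp
        have hwre : |w.re| ≤ 1 / 2 := by
          rw [hw]
          have := abs_sub_round z.re
          simpa [sub_eq_add_neg] using this
        have hΨ : Ψ w = Ψ z := h.shift z _
        have hKz : ∀ z' : ℂ, z.im ≤ z'.im → Ψ z' ≤ K0 := fun z' hz' => hmem z' (hz.trans hz')
        by_cases hd1 : B1 * ‖w - 1 / 2‖ ^ 2 ≤ w.im
        · have h3 := hdeep w (by rw [hwim]; exact hzpos) (by rw [hwim]; exact hz1) hd1 K0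
            (by rw [hwim]; exact hKz)
          rw [hΨ] at h3
          linarith
        · by_cases hd2 : B1 * ‖w + 1 / 2‖ ^ 2 ≤ w.im
          · have him : (w + 1).im = w.im := by simp
            have hnn : w + 1 - 1 / 2 = w + 1 / 2 := by ring
            have h3 := hdeep (w + 1) (by rw [him, hwim]; exact hzpos)
              (by rw [him, hwim]; exact hz1) (by rw [hnn, him]; exact hd2) K0
              (by rw [him, hwim]; exact hKz)
            rw [h.per, hΨ] at h3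
            linarith
          · push Not at hd1 hd2
            have hwpos : 0 < w.im := by rw [hwim]; exact hzpos
            have hw8 : w.im ≤ 1 / (8 * B1) := by rw [hwim]; exact h1.le
            have h4 := hstep w hwpos hw8 hwre hd1 hd2
            obtain ⟨h5, h6⟩ := geo4_step B1 hB1 w hwpos hw8 hwre hd1 hd2
            have h7 : Real.sqrt (z0.im / (2 * B1)) ≤ Real.sqrt (w.im / (2 * B1)) := by
              apply Real.sqrt_le_sqrt
              rw [hwim]
              gcongr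
            have h9 : z.im * κ ≤ (-1 / (4 * w)).im := by
              refine le_trans ?_ h6
              rw [hwim, hκ]
              have : Real.sqrt (z0.im / (2 * B1)) ≤ 1 / 2 - |w.re| := h7.trans h5
              gcongr
            have h10 : z.im ≤ (-1 / (4 * w)).im := by
              have : z.im * 1 ≤ z.im * κ := by gcongr
              linarith
            have h11 := ih (-1 / (4 * w)) (hz.trans h10) (by
              calc 1 / (8 * B1) ≤ z.im * κ ^ (n + 1) := hz2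
                _ = z.im * κ * κ ^ n := by ring
                _ ≤ (-1 / (4 * w)).im * κ ^ n := by gcongr)
            rw [hΨ, hwim] at h4
            linarith
  have hall : ∀ z : ℂ, z0.im ≤ z.im → Ψ z + U z.im ≤ M' + K0 / 4 + Umax := by
    intro z hz
    have hzpos : 0 < z.im := lt_of_lt_of_le hz0 hz
    obtain ⟨n, hn⟩ := pow_unbounded_of_one_lt (1 / (8 * B1) / z.im) hκ1
    refine key n z hz ?_
    rw [div_lt_iff₀ hzpos] at hn
    linarith
  have hK1 : K0 ≤ M' + K0 / 4 + Umax - U z0.im := by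
    refine csSup_le hne ?_
    rintro t ⟨z, hz, rfl⟩
    have h1 := hall z hz
    have h2 := hmono z0.im z.im hz0 hz
    linarith
  have h3 := hmem z0 (le_refl _)
  linarith

end Pool.Agent.H11.SC
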