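import Mathlib
import Pool.Agent.H11.SC.Defs

/-!
# DEEP: points deep in the cusp `1/2`

`q = 4`.  Let `w = z - 1/2`, `y = Im z = Im w ∈ (0, 1]`, `B = y/‖w‖² ≥ B1 ≥ 1`.  By `hhalf` at `w`,
`Ψ z = Ψ(w + 1/2) ≤ Ψ w + ∑_k wt k * Ψ(2^(k+1) w)`.  Let `M1 = M0 + |C|`, `M0` the bound of `Ψ` for
`Im ≥ 1/4` (`h.top`).
For `j ≥ 0` with `2^j ≤ B`: `Ψ(2^j w) ≤ M1`: if `2^j y > 1`, clear.  If `2^j y ≤ 1`, then
`‖2^j w‖² = 4^j y/B ≤ 2^j y ≤ 1`, so `hstep` applies and `Ψ(2^j w) ≤ Ψ(-1/(4·2^j w)) + C`, and the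
height of `-1/(4·2^j w)` is `2^j y/(4·4^j ‖w‖²) = B/(4·2^j) ≥ 1/4`.
For `2^j > B`: `Im (2^j w) = 2^j y ≥ y`, so `Ψ(2^j w) ≤ K`.
Hence `Ψ z ≤ M1 (1 + ∑ wt) + K ∑_{2^(k+1) > B} wt k` (`K ≥ 0`), and `B1 = 2^k0` is chosen with
`∑_{k ≥ k0} wt k ≤ 1/4` (`2^(k+1) > B ≥ 2^k0` implies `k ≥ k0`).
The series converges: `Ψ(2^(k+1) w) ≤` the bound for `Im ≥ y`.
-/

set_option autoImplicit false

namespace Pool.Agent.H11.SC

open Complex

theorem deep_im_inv (u : ℂ) (hu : 0 < u.im) :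
    (-1 / (4 * u)).im = u.im / (4 * ‖u‖ ^ 2) := by
  have h0 : 0 < ‖u‖ := norm_pos_iff.mpr (by rintro rfl; simp at hu)
  rw [div_eq_mul_inv, Complex.sq_norm]
  have h1 : (-1 * (4 * u)⁻¹ : ℂ).im = -((4 * u)⁻¹).im := by simp
  rw [h1, Complex.inv_im, Complex.normSq_mul]
  have h2 : Complex.normSq (4 : ℂ) = 16 := by
    rw [show (4 : ℂ) = ((4 : ℝ) : ℂ) by norm_num, Complex.normSq_ofReal]; norm_num
  have h3 : (4 * u).im = 4 * u.im := by simp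
  have h4 : 0 < Complex.normSq u := by
    rw [Complex.normSq_eq_norm_sq]; positivity
  rw [h2, h3]
  field_simp
  norm_num

theorem deep_point (Ψ : ℂ → ℝ) (C M0 : ℝ)
    (hstep : ∀ z : ℂ, 0 < z.im → z.im ≤ 1 → ‖z‖ ≤ 2 → |Ψ z - Ψ (-1 / (4 * z))| ≤ C)
    (hM0 : ∀ z : ℂ, 1 / 4 ≤ z.im → Ψ z ≤ M0) (w : ℂ) (hw : 0 < w.im) (j k0 : ℕ) (hj : j ≤ k0)
    (hB : (2 : ℝ) ^ k0 * ‖w‖ ^ 2 ≤ w.im) : Ψ (2 ^ j * w) ≤ M0 + |C| := by
  have hwn : 0 < ‖w‖ := norm_pos_iff.mpr (by rintro rfl; simp at hw)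
  have him : ((2 : ℂ) ^ j * w).im = 2 ^ j * w.im := by
    have : (2 : ℂ) ^ j = (((2 : ℝ) ^ j : ℝ) : ℂ) := by push_cast; rfl
    rw [this, Complex.im_ofReal_mul]
  have hno : ‖(2 : ℂ) ^ j * w‖ = 2 ^ j * ‖w‖ := by
    rw [norm_mul, norm_pow]; norm_num
  have h2j : (0 : ℝ) < 2 ^ j := by positivity
  have h2jk : (2 : ℝ) ^ j ≤ 2 ^ k0 := pow_le_pow_right₀ (by norm_num) hj
  by_cases h1 : 1 < (2 : ℝ) ^ j * w.im
  · have := hM0 (2 ^ j * w) (by rw [him]; linarith)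
    linarith [abs_nonneg C]
  · have h1' : (2 : ℝ) ^ j * w.im ≤ 1 := not_lt.mp h1
    have hup : 0 < ((2 : ℂ) ^ j * w).im := by rw [him]; positivity
    have hsq : ‖(2 : ℂ) ^ j * w‖ ^ 2 ≤ 1 := by
      rw [hno, mul_pow]
      have e1 : (2 : ℝ) ^ j * ‖w‖ ^ 2 ≤ w.im :=
        (mul_le_mul_of_nonneg_right h2jk (by positivity)).trans hB
      calc ((2 : ℝ) ^ j) ^ 2 * ‖w‖ ^ 2 = 2 ^ j * (2 ^ j * ‖w‖ ^ 2) := by ring
        _ ≤ 2 ^ j * w.im := mul_le_mul_of_nonneg_left e1 h2j.le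
        _ ≤ 1 := h1'
    have hn2 : ‖(2 : ℂ) ^ j * w‖ ≤ 2 := by
      have := norm_nonneg ((2 : ℂ) ^ j * w)
      nlinarith
    have h3 := hstep (2 ^ j * w) hup (by rw [him]; exact h1') hn2
    have h4 : 1 / 4 ≤ (-1 / (4 * ((2 : ℂ) ^ j * w))).im := by
      rw [deep_im_inv _ hup, him, hno]
      rw [div_le_div_iff₀ (by norm_num) (by positivity)]
      have e1 : (2 : ℝ) ^ j * ‖w‖ ^ 2 ≤ w.im :=
        (mul_le_mul_of_nonneg_right h2jk (by positivity)).trans hB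
      have e2 := mul_le_mul_of_nonneg_left e1 h2j.le
      nlinarith
    have h5 := hM0 _ h4
    have h6 := (abs_le.mp h3).2
    linarith [le_abs_self C]

theorem deep_bound (Ψ : ℂ → ℝ) (h : Approx 4 Ψ) (C : ℝ)
    (hstep : ∀ z : ℂ, 0 < z.im → z.im ≤ 1 → ‖z‖ ≤ 2 → |Ψ z - Ψ (-1 / (4 * z))| ≤ C)
    (wt : ℕ → ℝ) (hw0 : ∀ k, 0 ≤ wt k) (hw : Summable wt)
    (hhalf : ∀ z : ℂ, 0 < z.im → Ψ (z + 1 / 2) ≤ Ψ z + ∑' k : ℕ, wt k * Ψ (2 ^ (k + 1) * z)) :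
    ∃ B1 M : ℝ, 1 ≤ B1 ∧ ∀ z : ℂ, 0 < z.im → z.im ≤ 1 → B1 * ‖z - 1 / 2‖ ^ 2 ≤ z.im →
      ∀ K : ℝ, (∀ z' : ℂ, z.im ≤ z'.im → Ψ z' ≤ K) → Ψ z ≤ M + K / 4 := by
  obtain ⟨M0, hM0⟩ := h.top (1 / 4) (by norm_num)
  have htail := tendsto_sum_nat_add wt
  obtain ⟨k0, hk0⟩ := ((tendsto_order.mp htail).2 (1 / 4) (by norm_num)).exists
  set M1 := |M0| + |C| with hM1
  have hM1n : 0 ≤ M1 := by positivity
  refine ⟨2 ^ k0, M1 + M1 * ∑' k, wt k, one_le_pow₀ (by norm_num), fun z hz hz1 hB K hK => ?_⟩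
  set w := z - 1 / 2 with hwdef
  have hwim : w.im = z.im := by
    rw [hwdef]
    simp
  have hw' : 0 < w.im := by rw [hwim]; exact hz
  have hzw : w + 1 / 2 = z := by rw [hwdef]; ring
  have hK0 : 0 ≤ K := (h.nonneg z hz).trans (hK z le_rfl)
  have hB' : (2 : ℝ) ^ k0 * ‖w‖ ^ 2 ≤ w.im := by rw [hwim]; exact hB
  have hpt : ∀ j : ℕ, j ≤ k0 → Ψ (2 ^ j * w) ≤ M1 := by
    intro j hj
    have := deep_point Ψ C M0 hstep hM0 w hw' j k0 hj hB'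
    linarith [le_abs_self M0]
  have him : ∀ j : ℕ, ((2 : ℂ) ^ j * w).im = 2 ^ j * w.im := by
    intro j
    have : (2 : ℂ) ^ j = (((2 : ℝ) ^ j : ℝ) : ℂ) := by push_cast; rfl
    rw [this, Complex.im_ofReal_mul]
  have hterm : ∀ k : ℕ, wt k * Ψ (2 ^ (k + 1) * w) ≤
      wt k * M1 + (if k < k0 then 0 else wt k) * K := by
    intro k
    by_cases hk : k < k0
    · rw [if_pos hk]
      have := hpt (k + 1) hk
      have := mul_le_mul_of_nonneg_left this (hw0 k)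
      linarith
    · rw [if_neg hk]
      have h1 : z.im ≤ ((2 : ℂ) ^ (k + 1) * w).im := by
        rw [him, hwim]
        have : (1 : ℝ) ≤ 2 ^ (k + 1) := one_le_pow₀ (by norm_num)
        nlinarith
      have h2 := mul_le_mul_of_nonneg_left (hK _ h1) (hw0 k)
      have h3 := mul_nonneg (hw0 k) hM1n
      linarith
  have hs2 : Summable (fun k : ℕ => (if k < k0 then 0 else wt k)) := by
    refine Summable.of_nonneg_of_le (fun k => ?_) (fun k => ?_) hw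
    · split_ifs
      · exact le_rfl
      · exact hw0 k
    · split_ifs
      · exact hw0 k
      · exact le_rfl
  have hs3 : Summable (fun k : ℕ => wt k * M1 + (if k < k0 then 0 else wt k) * K) :=
    (hw.mul_right M1).add (hs2.mul_right K)
  have hs1 : Summable (fun k : ℕ => wt k * Ψ (2 ^ (k + 1) * w)) := by
    refine Summable.of_nonneg_of_le (fun k => ?_) hterm hs3
    refine mul_nonneg (hw0 k) (h.nonneg _ ?_)
    rw [him]; positivity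
  have htail2 : ∑' k : ℕ, (if k < k0 then 0 else wt k) = ∑' k : ℕ, wt (k + k0) := by
    rw [← hs2.sum_add_tsum_nat_add k0]
    have e1 : ∑ k ∈ Finset.range k0, (if k < k0 then (0 : ℝ) else wt k) = 0 :=
      Finset.sum_eq_zero fun k hk => if_pos (Finset.mem_range.mp hk)
    rw [e1, zero_add]
    refine tsum_congr fun k => ?_
    rw [if_neg (by omega)]
  have hsum : ∑' k : ℕ, wt k * Ψ (2 ^ (k + 1) * w) ≤ M1 * ∑' k, wt k + K / 4 := by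
    refine (hs1.tsum_le_tsum hterm hs3).trans ?_
    rw [(hw.mul_right M1).tsum_add (hs2.mul_right K), tsum_mul_right, tsum_mul_right, htail2]
    have : (∑' k : ℕ, wt (k + k0)) * K ≤ 1 / 4 * K := mul_le_mul_of_nonneg_right hk0.le hK0
    linarith [mul_comm M1 (∑' k, wt k)]
  have h0 := hpt 0 (Nat.zero_le _)
  rw [pow_zero, one_mul] at h0
  have hfin := hhalf w hw'
  rw [hzw] at hfin
  linarith

end Pool.Agent.H11.SC
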