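import Mathlib
import Pool.Agent.H11.SC.Appr

/-!
# G2: a bound for `g_2` from a bound for `phi`

`gs a 2 ξ = 2π ∫_0^∞ gs a 3 (ξ + t) dt` for `Re ξ > 0` (termwise:
`∫_0^∞ 2πn e^(-2πn(ξ+t)) dt = e^(-2πnξ)`; sum and integral interchange by absolute convergence).
Let `x = Re ξ ∈ (0, 4]`.  With `z = I (ξ + t)`: `-(I z) = ξ + t`, `Im z = x + t`, so for `x + t ≤ 1`
`‖gs a 3 (ξ+t)‖ = phi a z / (x+t)^(7/2) ≤ K (x+t)^(-15/4)`; for `x + t ≥ 1` `gs_top` (`m = 3`,
`y0 = 1`) gives `‖gs a 3 (ξ+t)‖ ≤ C e^(-π(x+t)) ≤ C e^(-πt)`.  (One may also use the bound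
`‖gs a 3 (ξ+t)‖ ≤ C' (x+t)^(-15/4)` for all `t`, which follows from the two.)  Hence
`‖gs a 2 ξ‖ ≤ 2π K (4/11) x^(-11/4) + C'' ≤ C''' x^(-11/4)` (`x ≤ 4`).
-/

set_option autoImplicit false

namespace Pool.Agent.H11.SC

open Complex

/-- the bound for `gs a 3` on the whole half plane -/
theorem gs3_of_phi (a : ℕ → ℂ) (ha : ∃ C : ℝ, ∀ n : ℕ, 1 ≤ n → ‖a n‖ ≤ C * (n : ℝ) ^ (1 : ℝ))
    (K : ℝ) (hK : ∀ z : ℂ, 0 < z.im → z.im ≤ 1 → phi a z ≤ K * z.im ^ (-(1 / 4) : ℝ)) :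
    ∃ C : ℝ, 0 ≤ C ∧ ∀ ζ : ℂ, 0 < ζ.re → ‖gs a 3 ζ‖ ≤ C * ζ.re ^ (-(15 / 4) : ℝ) := by
  obtain ⟨C1, hC1⟩ := gs_top a 3 (by norm_num) 1 ha 1 one_pos
  obtain ⟨K2, hK2, hexp⟩ := rpow_le_exp (15 / 4) (by norm_num)
  refine ⟨|K| + |C1| * K2, by positivity, fun ζ hζ => ?_⟩
  set u := ζ.re with hu
  have hup : 0 < u ^ (-(15 / 4) : ℝ) := Real.rpow_pos_of_pos hζ _
  rcases le_total u 1 with h | h
  · have him : (I * ζ).im = u := by simp [hu]
    have harg : -(I * (I * ζ)) = ζ := by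
      rw [← mul_assoc, Complex.I_mul_I]; ring
    have h1 := hK (I * ζ) (by rw [him]; exact hζ) (by rw [him]; exact h)
    unfold phi at h1
    rw [him, harg] at h1
    have h2 : ‖gs a 3 ζ‖ = u ^ (-(7 / 2) : ℝ) * (u ^ (7 / 2 : ℝ) * ‖gs a 3 ζ‖) := by
      rw [← mul_assoc, ← Real.rpow_add hζ]
      norm_num
    rw [h2]
    calc u ^ (-(7 / 2) : ℝ) * (u ^ (7 / 2 : ℝ) * ‖gs a 3 ζ‖)
        ≤ u ^ (-(7 / 2) : ℝ) * (|K| * u ^ (-(1 / 4) : ℝ)) := by
          apply mul_le_mul_of_nonneg_left _ (by positivity)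
          exact h1.trans (mul_le_mul_of_nonneg_right (le_abs_self _) (by positivity))
      _ = |K| * (u ^ (-(7 / 2) : ℝ) * u ^ (-(1 / 4) : ℝ)) := by ring
      _ = |K| * u ^ (-(15 / 4) : ℝ) := by rw [← Real.rpow_add hζ]; norm_num
      _ ≤ (|K| + |C1| * K2) * u ^ (-(15 / 4) : ℝ) := by
          apply mul_le_mul_of_nonneg_right _ hup.le
          have : 0 ≤ |C1| * K2 := by positivity
          linarith
  · have h1 := hC1 ζ h
    have h2 : Real.exp (-(Real.pi * u)) ≤ K2 * u ^ (-(15 / 4) : ℝ) := by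
      have h3 := hexp u hζ
      rw [Real.exp_neg, Real.rpow_neg hζ.le]
      have p1 : 0 < u ^ (15 / 4 : ℝ) := Real.rpow_pos_of_pos hζ _
      rw [← div_eq_mul_inv, le_div_iff₀ p1, inv_mul_le_iff₀ (Real.exp_pos _)]
      linarith
    calc ‖gs a 3 ζ‖ ≤ |C1| * Real.exp (-(Real.pi * u)) :=
          h1.trans (mul_le_mul_of_nonneg_right (le_abs_self _) (Real.exp_nonneg _))
      _ ≤ |C1| * (K2 * u ^ (-(15 / 4) : ℝ)) := mul_le_mul_of_nonneg_left h2 (abs_nonneg _)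
      _ = |C1| * K2 * u ^ (-(15 / 4) : ℝ) := by ring
      _ ≤ (|K| + |C1| * K2) * u ^ (-(15 / 4) : ℝ) := by
          apply mul_le_mul_of_nonneg_right _ hup.le
          have : 0 ≤ |K| := abs_nonneg _
          linarith

/-- `gs a 2` as an integral of `gs a 3` -/
theorem gs2_eq_int (a : ℕ → ℂ) (ha : ∃ C : ℝ, ∀ n : ℕ, 1 ≤ n → ‖a n‖ ≤ C * (n : ℝ) ^ (1 : ℝ))
    (x v : ℝ) (hx : 0 < x) :
    gs a 2 (x + v * I) = 2 * Real.pi * ∫ t in Set.Ioi x, gs a 3 (t + v * I) := by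
  obtain ⟨C, hC⟩ := ha
  have hpi := Real.pi_pos
  set f : ℕ → ℝ → ℂ := fun n t => a n * (n : ℂ) ^ 3 * cexp (-(2 * (Real.pi : ℂ) * n * (t + v * I)))
    with hf
  have hrw : ∀ n : ℕ, ∀ t : ℝ, f n t = (a n * (n : ℂ) ^ 3 * cexp (-(2 * (Real.pi : ℂ) * n * (v * I)))) *
      cexp (((-(2 * Real.pi * n) : ℝ) : ℂ) * t) := by
    intro n t
    rw [hf]
    simp only
    rw [mul_assoc (a n * (n : ℂ) ^ 3), ← Complex.exp_add]
    congr 2
    push_cast
    ring
  have hint : ∀ n : ℕ, MeasureTheory.Integrable (f n) (MeasureTheory.volume.restrict (Set.Ioi x)) := by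
    intro n
    rcases Nat.eq_zero_or_pos n with rfl | hn
    · have : f 0 = fun _ => 0 := by
        funext t; rw [hf]; simp
      rw [this]
      exact MeasureTheory.integrable_zero _ _ _
    · have hn1 : (1 : ℝ) ≤ n := by exact_mod_cast hn
      have h1 := integrableOn_exp_mul_complex_Ioi (a := ((-(2 * Real.pi * n) : ℝ) : ℂ))
        (by rw [Complex.ofReal_re]; have : 0 < 2 * Real.pi * n := by positivity
            linarith) x
      have h2 := h1.const_mul (a n * (n : ℂ) ^ 3 * cexp (-(2 * (Real.pi : ℂ) * n * (v * I))))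
      refine h2.congr ?_
      exact Filter.Eventually.of_forall (fun t => (hrw n t).symm)
  have hval : ∀ n : ℕ, 2 * (Real.pi : ℂ) * ∫ t in Set.Ioi x, f n t =
      a n * (n : ℂ) ^ 2 * cexp (-(2 * (Real.pi : ℂ) * n * (x + v * I))) := by
    intro n
    rcases Nat.eq_zero_or_pos n with rfl | hn
    · have : f 0 = fun _ => 0 := by
        funext t; rw [hf]; simp
      rw [this]
      simp
    · have hn1 : (1 : ℝ) ≤ n := by exact_mod_cast hn
      have hnC : (n : ℂ) ≠ 0 := by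
        have : n ≠ 0 := by omega
        exact_mod_cast this
      have hpC : (Real.pi : ℂ) ≠ 0 := by exact_mod_cast hpi.ne'
      have h1 := integral_exp_mul_complex_Ioi (a := ((-(2 * Real.pi * n) : ℝ) : ℂ))
        (by rw [Complex.ofReal_re]; have : 0 < 2 * Real.pi * n := by positivity
            linarith) x
      have h2 : ∫ t in Set.Ioi x, f n t =
          (a n * (n : ℂ) ^ 3 * cexp (-(2 * (Real.pi : ℂ) * n * (v * I)))) *
            ∫ t in Set.Ioi x, cexp (((-(2 * Real.pi * n) : ℝ) : ℂ) * t) := by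
        rw [← MeasureTheory.integral_const_mul]
        exact MeasureTheory.integral_congr_ae (Filter.Eventually.of_forall (fun t => hrw n t))
      rw [h2, h1]
      have h3 : cexp (-(2 * (Real.pi : ℂ) * n * (x + v * I))) =
          cexp (-(2 * (Real.pi : ℂ) * n * (v * I))) * cexp (((-(2 * Real.pi * n) : ℝ) : ℂ) * x) := by
        rw [← Complex.exp_add]
        congr 1
        push_cast
        ring
      rw [h3]
      push_cast
      field_simp
  have hnorm : ∀ n : ℕ, ∀ t : ℝ, ‖f n t‖ = ‖a n‖ * (n : ℝ) ^ 3 * Real.exp (-(2 * Real.pi * n) * t) := by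
    intro n t
    rw [hf]
    simp only
    rw [norm_mul, norm_mul, norm_pow, norm_cexp_gs, Complex.norm_natCast]
    congr 2
    simp
  have hsum : Summable (fun n => ∫ t in Set.Ioi x, ‖f n t‖) := by
    have hb : Summable (fun n : ℕ => |C| * ((n : ℝ) ^ 3 * Real.exp (-(2 * Real.pi * x) * n))) :=
      (Real.summable_pow_mul_exp_neg_nat_mul 3 (by positivity)).mul_left _
    refine Summable.of_nonneg_of_le (fun n => MeasureTheory.integral_nonneg (fun t => norm_nonneg _))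
      (fun n => ?_) hb
    rcases Nat.eq_zero_or_pos n with rfl | hn
    · have : ∀ t, ‖f 0 t‖ = 0 := by intro t; rw [hf]; simp
      simp only [this]
      simp
    · have hn1 : (1 : ℝ) ≤ n := by exact_mod_cast hn
      have h2 : ∫ t in Set.Ioi x, ‖f n t‖ = ‖a n‖ * (n : ℝ) ^ 3 *
          ∫ t in Set.Ioi x, Real.exp (-(2 * Real.pi * n) * t) := by
        rw [← MeasureTheory.integral_const_mul]
        exact MeasureTheory.integral_congr_ae (Filter.Eventually.of_forall (fun t => hnorm n t))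
      have hneg : -(2 * Real.pi * n) < 0 := by
        have : 0 < 2 * Real.pi * n := by positivity
        linarith
      rw [h2, integral_exp_mul_Ioi hneg x]
      have h3 : -Real.exp (-(2 * Real.pi * n) * x) / -(2 * Real.pi * n) =
          Real.exp (-(2 * Real.pi * x) * n) / (2 * Real.pi * n) := by
        rw [neg_div_neg_eq]
        congr 2
        ring
      rw [h3]
      have h4 := hC n hn
      rw [Real.rpow_one] at h4
      have h5 : ‖a n‖ ≤ |C| * n := h4.trans (mul_le_mul_of_nonneg_right (le_abs_self _) (by positivity))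
      have h6 : (1:ℝ) ≤ 2 * Real.pi := by linarith [Real.pi_gt_three]
      calc ‖a n‖ * (n : ℝ) ^ 3 * (Real.exp (-(2 * Real.pi * x) * n) / (2 * Real.pi * n))
          ≤ (|C| * n) * (n : ℝ) ^ 3 * (Real.exp (-(2 * Real.pi * x) * n) / (1 * n)) := by
            gcongr
        _ = |C| * ((n : ℝ) ^ 3 * Real.exp (-(2 * Real.pi * x) * n)) := by
            have : (n : ℝ) ≠ 0 := by positivity
            field_simp
  have hmain := MeasureTheory.hasSum_integral_of_summable_integral_norm hint hsum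
  have h7 : HasSum (fun n : ℕ => 2 * (Real.pi : ℂ) * ∫ t in Set.Ioi x, f n t)
      (2 * (Real.pi : ℂ) * ∫ t in Set.Ioi x, ∑' n, f n t) := hmain.mul_left _
  simp only [hval] at h7
  exact h7.tsum_eq

theorem gs2_of_phi (a : ℕ → ℂ) (ha : ∃ C : ℝ, ∀ n : ℕ, 1 ≤ n → ‖a n‖ ≤ C * (n : ℝ) ^ (1 : ℝ))
    (K : ℝ) (hK : ∀ z : ℂ, 0 < z.im → z.im ≤ 1 → phi a z ≤ K * z.im ^ (-(1 / 4) : ℝ)) :
    ∃ C : ℝ, ∀ ξ : ℂ, 0 < ξ.re → ξ.re ≤ 4 → ‖gs a 2 ξ‖ ≤ C * ξ.re ^ (-(11 / 4) : ℝ) := by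
  obtain ⟨C, hC0, hC⟩ := gs3_of_phi a ha K hK
  have hpi := Real.pi_pos
  refine ⟨2 * Real.pi * (C * (4 / 11)), fun ξ hξ _ => ?_⟩
  have h1 := gs2_eq_int a ha ξ.re ξ.im hξ
  rw [Complex.re_add_im] at h1
  rw [h1, norm_mul]
  have h2 : ‖(2 * (Real.pi : ℂ))‖ = 2 * Real.pi := by
    rw [norm_mul]; simp [abs_of_pos hpi]
  rw [h2, mul_assoc (2 * Real.pi)]
  apply mul_le_mul_of_nonneg_left _ (by positivity)
  have hg : MeasureTheory.IntegrableOn (fun t : ℝ => C * t ^ (-(15 / 4) : ℝ)) (Set.Ioi ξ.re) :=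
    (integrableOn_Ioi_rpow_of_lt (by norm_num) hξ).const_mul C
  have h3 : ‖∫ t in Set.Ioi ξ.re, gs a 3 (t + ξ.im * I)‖ ≤
      ∫ t in Set.Ioi ξ.re, C * t ^ (-(15 / 4) : ℝ) := by
    apply MeasureTheory.norm_integral_le_of_norm_le hg
    rw [MeasureTheory.ae_restrict_iff' measurableSet_Ioi]
    refine Filter.Eventually.of_forall (fun t ht => ?_)
    have ht0 : 0 < t := lt_trans hξ ht
    have hre : ((t : ℂ) + ξ.im * I).re = t := by simp
    have := hC ((t : ℂ) + ξ.im * I) (by rw [hre]; exact ht0)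
    rw [hre] at this
    exact this
  refine h3.trans (le_of_eq ?_)
  rw [MeasureTheory.integral_const_mul, integral_Ioi_rpow_of_lt (by norm_num) hξ, mul_assoc]
  congr 1
  have e1 : (-(15 / 4) + 1 : ℝ) = -(11 / 4) := by norm_num
  rw [e1]
  ring

end Pool.Agent.H11.SC
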