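import Mathlib
import Pool.Agent.H11.SC.Appr
import Pool.Agent.H11.SC4.G2

/-!
# STEPFAR: the step with a better error away from `0`

The proof is the one of `one_step` (Pool/Agent/H11/SC/Step.lean) and of `step_both`, `Psi_approx`
(Appr.lean); only the estimate of the second term changes.
Here `q = (2 π B)² = 4`, `m = 3`, `η = 1/8`, `1/4 ≤ ‖z‖ ≤ 2`, `0 < y ≤ 1`, `ξ = -iz`.
(b') `Re (1/(qξ)) = y/(4‖ξ‖²)` lies between `y/16` and `4y ≤ 4`, so by `gs2_of_phi` for `cj a`,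
`‖gs (cj a) 2 (1/(qξ))‖ ≤ C (y/16)^(-11/4)`, and `y^(7/2) ‖ξ‖^(-6) ≤ 4^6 y^(7/2)`: the second term is
`≤ C' y^(3/4)`.
(c') `y^(7/2) ‖VI‖ ≤ D y^(7/8) ‖ξ‖^(-1/4) ≤ D' y^(7/8) ≤ D' y^(3/4)`.
The right half `Re z ≥ 0` by reflection as in `step_both` (`‖-conj z‖ = ‖z‖`), then `Psi` by adding the
inequalities for `h` and `h.conj`.  The hypotheses `hK`, `hK'` are for `phi a` and `phi (cj a)`.
(It may be convenient to prove first a lemma with the error `C (second term) + C y^(7/8) ‖z‖^(-1/4)`.)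
-/

set_option autoImplicit false

namespace Pool.Agent.H11.SC

open Complex Pool.Agent.H11.Selberg

variable {a : ℕ → ℂ} {F : ℂ → ℂ} {Q : ℝ} {k : ℕ} {lam : Fin k → ℝ} {mu : Fin k → ℂ} {ε : ℂ}

/-- the step before the second term is estimated -/
theorem one_step_raw4 (h : FEq a F Q lam mu ε) : ∃ A D : ℝ, 0 ≤ A ∧ 0 ≤ D ∧
    ∀ z : ℂ, 0 < z.im → z.im ≤ 1 → z.re ≤ 0 →
    |phi a z - phi (cj a) (-1 / (((2 * Real.pi * Bp Q lam) ^ 2 : ℝ) * z))| ≤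
      A * (z.im ^ (7 / 2 : ℝ) * (‖z‖ ^ 6)⁻¹ *
        ‖gs (cj a) 2 (-(I * (-1 / (((2 * Real.pi * Bp Q lam) ^ 2 : ℝ) * z))))‖) +
      D * (z.im ^ (7 / 8 : ℝ) * ‖z‖ ^ (-(1 / 4) : ℝ)) := by
  have hB : 0 < Bp Q lam := Bp_pos' h.Qpos h.lampos
  set B : ℝ := Bp Q lam with hBdef
  have hπ : (0:ℝ) < Real.pi := Real.pi_pos
  set q : ℝ := (2 * Real.pi * B) ^ 2 with hqdef
  have hq : 0 < q := by positivity
  obtain ⟨ω, κ, C0, hω, h1, h2⟩ := rho_bound h 3 (by norm_num) (1/8) (by norm_num) (by norm_num)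
  obtain ⟨Cg, hCg⟩ := gamma_bound (23/8) (23/8) (by norm_num)
  obtain ⟨D, hD⟩ := VI_bound (|C0| * |Cg|) (23/8) (13/8) (29/8) (by norm_num)
  -- the final constant
  refine ⟨‖κ‖ * (B ^ 5)⁻¹ * ((2 * Real.pi) ^ 6)⁻¹, |D|, by positivity, abs_nonneg _, ?_⟩
  intro z hy0 hy1 hx
  set y : ℝ := z.im with hy
  set ξ : ℂ := -(I * z) with hξdef
  have hξre : ξ.re = y := by simp [hξdef, hy]
  have hξim : ξ.im = -z.re := by simp [hξdef]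
  have hξn : ‖ξ‖ = ‖z‖ := by rw [hξdef, norm_neg, norm_mul, Complex.norm_I, one_mul]
  have hzn : y ≤ ‖z‖ := (le_abs_self _).trans (Complex.abs_im_le_norm z)
  have hzn0 : 0 < ‖z‖ := lt_of_lt_of_le hy0 hzn
  have hz0 : z ≠ 0 := norm_pos_iff.mp hzn0
  have hid := id_complex h 3 (by norm_num) (1/8) (by norm_num) (by norm_num) ω κ C0 h1 h2 ξ
    (by rw [hξre]; exact hy0)
  have hξ0 : ξ ≠ 0 := by
    rw [← norm_pos_iff, hξn]; exact hzn0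
  set z' : ℂ := -1 / (((2 * Real.pi * B) ^ 2 : ℝ) * z) with hz'
  have hz'q : z' = -1 / ((q : ℂ) * z) := by rw [hz', hqdef]
  have hz'im : z'.im = y / (q * ‖z‖ ^ 2) := by rw [hz'q, step_im]
  have hz'pos : 0 < z'.im := by rw [hz'im]; positivity
  have hqC : (q : ℂ) ≠ 0 := by exact_mod_cast hq.ne'
  have harg : 1 / (4 * (Real.pi : ℂ) ^ 2 * (B : ℂ) ^ 2 * ξ) = -(I * z') := by
    have e1 : (4 * (Real.pi : ℂ) ^ 2 * (B : ℂ) ^ 2 * ξ) = -(I * ((q:ℂ) * z)) := by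
      rw [hξdef, hqdef]; push_cast; ring
    rw [e1, hz'q]
    have hw : (q:ℂ) * z ≠ 0 := mul_ne_zero hqC hz0
    have hI : (I:ℂ) ≠ 0 := Complex.I_ne_zero
    field_simp
    rw [Complex.I_sq]
  rw [harg] at hid
  have e1 : ((3:ℕ):ℝ) - 1/8 = 23/8 := by norm_num
  rw [e1] at hid
  set G : ℝ → ℂ := fun t => rho F B (1/8) 3 ω κ t * Gamma (((3:ℕ):ℂ) - ((1/8:ℝ):ℂ) + t * I)
    with hG
  have hGam : ∀ t : ℝ, (((3:ℕ):ℂ) - ((1/8:ℝ):ℂ) + t * I) = (((23/8:ℝ):ℂ) + t*I) := by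
    intro t; push_cast; ring
  have hgn : ∀ t : ℝ, ‖Gamma (((3:ℕ):ℂ) - ((1/8:ℝ):ℂ) + t * I)‖ ≤
      |Cg| * (1 + |t|) ^ (19/8 : ℝ) * Real.exp (-(Real.pi / 2 * |t|)) := by
    intro t
    rw [hGam t]
    have := hCg (23/8) t le_rfl le_rfl
    have e2 : (23/8 : ℝ) - 1/2 = 19/8 := by norm_num
    rw [e2] at this
    refine this.trans ?_
    apply mul_le_mul_of_nonneg_right _ (Real.exp_nonneg _)
    apply mul_le_mul_of_nonneg_right (le_abs_self _)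
    positivity
  have hV := hD G ?_ ?_ ξ (by rw [hξre]; exact hy0) (by rw [hξim]; linarith)
  rotate_left
  · intro t ht
    have b1 := h1 t ht
    have b2 := hgn t
    rw [abs_of_nonneg ht] at b2
    have e3 : (2 * (1/8) - 1 : ℝ) = -(3/4) := by norm_num
    rw [e3] at b1
    have b1' : ‖rho F B (1/8) 3 ω κ t‖ ≤ |C0| * (1 + t) ^ (-(3/4) : ℝ) := by
      refine b1.trans ?_
      apply mul_le_mul_of_nonneg_right (le_abs_self _)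
      positivity
    rw [hG]
    show ‖rho F B (1/8) 3 ω κ t * Gamma (((3:ℕ):ℂ) - ((1/8:ℝ):ℂ) + t * I)‖ ≤ _
    rw [norm_mul]
    have h1t : (0:ℝ) < 1 + t := by linarith
    calc ‖rho F B (1/8) 3 ω κ t‖ * ‖Gamma (((3:ℕ):ℂ) - ((1/8:ℝ):ℂ) + t * I)‖ ≤
        (|C0| * (1 + t) ^ (-(3/4) : ℝ)) *
          (|Cg| * (1 + t) ^ (19/8 : ℝ) * Real.exp (-(Real.pi / 2 * t))) :=
          mul_le_mul b1' b2 (norm_nonneg _) (by positivity)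
      _ = |C0| * |Cg| * ((1 + t) ^ (-(3/4) : ℝ) * (1 + t) ^ (19/8 : ℝ)) *
          Real.exp (-(Real.pi / 2 * t)) := by ring
      _ = |C0| * |Cg| * (1 + t) ^ (13/8 : ℝ) * Real.exp (-(Real.pi / 2 * t)) := by
          rw [← Real.rpow_add h1t]; norm_num
  · intro t ht
    have b1 := h2 t ht
    have b2 := hgn t
    have e3 : (1 + 2 * (1/8) : ℝ) = 5/4 := by norm_num
    rw [e3] at b1
    have b1' : ‖rho F B (1/8) 3 ω κ t‖ ≤ |C0| * (1 + |t|) ^ (5/4 : ℝ) := by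
      refine b1.trans ?_
      apply mul_le_mul_of_nonneg_right (le_abs_self _)
      positivity
    rw [hG]
    show ‖rho F B (1/8) 3 ω κ t * Gamma (((3:ℕ):ℂ) - ((1/8:ℝ):ℂ) + t * I)‖ ≤ _
    rw [norm_mul]
    have h1t : (0:ℝ) < 1 + |t| := by positivity
    calc ‖rho F B (1/8) 3 ω κ t‖ * ‖Gamma (((3:ℕ):ℂ) - ((1/8:ℝ):ℂ) + t * I)‖ ≤
        (|C0| * (1 + |t|) ^ (5/4 : ℝ)) *
          (|Cg| * (1 + |t|) ^ (19/8 : ℝ) * Real.exp (-(Real.pi / 2 * |t|))) :=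
          mul_le_mul b1' b2 (norm_nonneg _) (by positivity)
      _ = |C0| * |Cg| * ((1 + |t|) ^ (5/4 : ℝ) * (1 + |t|) ^ (19/8 : ℝ)) *
          Real.exp (-(Real.pi / 2 * |t|)) := by ring
      _ = |C0| * |Cg| * (1 + |t|) ^ (29/8 : ℝ) * Real.exp (-(Real.pi / 2 * |t|)) := by
          rw [← Real.rpow_add h1t]; norm_num
  rw [hξre, hξn] at hV
  -- names for the three terms
  set g3 : ℂ := gs (cj a) 3 (-(I * z')) with hg3
  set g2 : ℂ := gs (cj a) (3 - 1) (-(I * z')) with hg2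
  set T1 : ℂ := ω * (((B ^ (1 + 2 * 3) : ℝ) : ℂ)⁻¹ * ((2 * (Real.pi : ℂ) * ξ) ^ (1 + 3 + 3))⁻¹ * g3)
    with hT1
  set T2 : ℂ := ω * κ * (((B ^ (1 + 2 * (3 - 1)) : ℝ) : ℂ)⁻¹ *
    ((2 * (Real.pi : ℂ) * ξ) ^ (1 + (3 - 1) + 3))⁻¹ * g2) with hT2
  set T3 : ℂ := VI G (23/8) ξ with hT3
  have hid' : gs a 3 ξ = T1 + T2 + T3 := hid
  have hn2 : ‖(2 * (Real.pi : ℂ) * ξ)‖ = 2 * Real.pi * ‖z‖ := by
    rw [norm_mul, norm_mul, hξn]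
    simp [abs_of_pos hπ]
  have hT1n : ‖T1‖ = (B ^ 7)⁻¹ * ((2 * Real.pi * ‖z‖) ^ 7)⁻¹ * ‖g3‖ := by
    rw [hT1, norm_mul, norm_mul, norm_mul, hω, one_mul, norm_inv, norm_inv, norm_pow, hn2,
      Complex.norm_real, Real.norm_of_nonneg (by positivity)]
  have hT2n : ‖T2‖ = ‖κ‖ * ((B ^ 5)⁻¹ * ((2 * Real.pi * ‖z‖) ^ 6)⁻¹ * ‖g2‖) := by
    rw [hT2, norm_mul, norm_mul, norm_mul, norm_mul, hω, one_mul, norm_inv, norm_inv, norm_pow,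
      hn2, Complex.norm_real, Real.norm_of_nonneg (by positivity)]
  have hphi1 : phi a z = y ^ (7/2 : ℝ) * ‖T1 + T2 + T3‖ := by
    rw [← hid']; rfl
  have hqz : q * ‖z‖ ^ 2 = (2 * Real.pi * B * ‖z‖) ^ (2:ℝ) := by
    rw [hqdef, Real.rpow_two]; ring
  have hphi2 : phi (cj a) z' = y ^ (7/2 : ℝ) * ‖T1‖ := by
    have e4 : phi (cj a) z' = z'.im ^ (7/2 : ℝ) * ‖g3‖ := rfl
    rw [e4, hT1n, hz'im, Real.div_rpow hy0.le (by positivity), hqz, ← Real.rpow_mul (by positivity)]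
    have e5 : (2 * (7/2) : ℝ) = ((7:ℕ):ℝ) := by norm_num
    rw [e5, Real.rpow_natCast]
    field_simp
  have hdiff : |phi a z - phi (cj a) z'| ≤ y ^ (7/2 : ℝ) * (‖T2‖ + ‖T3‖) := by
    rw [hphi1, hphi2, ← mul_sub, abs_mul, abs_of_nonneg (by positivity : (0:ℝ) ≤ y ^ (7/2 : ℝ))]
    apply mul_le_mul_of_nonneg_left _ (by positivity)
    calc |‖T1 + T2 + T3‖ - ‖T1‖| ≤ ‖T1 + T2 + T3 - T1‖ := abs_norm_sub_norm_le _ _
      _ = ‖T2 + T3‖ := by congr 1; ring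
      _ ≤ _ := norm_add_le _ _
  refine hdiff.trans ?_
  -- second term
  have hA : y ^ (7/2 : ℝ) * ‖T2‖ =
      (‖κ‖ * (B ^ 5)⁻¹ * ((2 * Real.pi) ^ 6)⁻¹) * (y ^ (7/2 : ℝ) * (‖z‖ ^ 6)⁻¹ * ‖g2‖) := by
    rw [hT2n]
    have hz6 : ((2 * Real.pi * ‖z‖) ^ 6)⁻¹ = ((2 * Real.pi) ^ 6)⁻¹ * (‖z‖ ^ 6)⁻¹ := by
      rw [mul_pow, mul_inv]
    rw [hz6]
    ring
  -- third term
  have hBt : y ^ (7/2 : ℝ) * ‖T3‖ ≤ |D| * (y ^ (7/8 : ℝ) * ‖z‖ ^ (-(1/4) : ℝ)) := by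
    have e9 : (13/8 + 1 : ℝ) = 21/8 := by norm_num
    rw [e9, Real.div_rpow hzn0.le hy0.le] at hV
    calc y ^ (7/2 : ℝ) * ‖T3‖ ≤ y ^ (7/2 : ℝ) *
          (|D| * ‖z‖ ^ (-(23/8) : ℝ) * (‖z‖ ^ (21/8 : ℝ) / y ^ (21/8 : ℝ))) := by
          apply mul_le_mul_of_nonneg_left _ (by positivity)
          refine hV.trans ?_
          apply mul_le_mul_of_nonneg_right _ (by positivity)
          apply mul_le_mul_of_nonneg_right (le_abs_self _) (by positivity)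
      _ = |D| * ((y ^ (7/2 : ℝ) * y ^ (-(21/8) : ℝ)) * (‖z‖ ^ (-(23/8) : ℝ) * ‖z‖ ^ (21/8 : ℝ))) := by
          rw [Real.rpow_neg hy0.le (21/8)]; ring
      _ = |D| * (y ^ (7/8 : ℝ) * ‖z‖ ^ (-(1/4) : ℝ)) := by
          rw [← Real.rpow_add hy0, ← Real.rpow_add hzn0]; norm_num
  calc y ^ (7/2 : ℝ) * (‖T2‖ + ‖T3‖) = y ^ (7/2 : ℝ) * ‖T2‖ + y ^ (7/2 : ℝ) * ‖T3‖ := by ring
    _ ≤ _ := add_le_add hA.le hBt

/-- the left half with the better error -/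
theorem one_step_far4 (h : FEq a F Q lam mu ε) (hq : (2 * Real.pi * Bp Q lam) ^ 2 = 4) (K : ℝ)
    (hK : ∀ z : ℂ, 0 < z.im → z.im ≤ 1 → phi (cj a) z ≤ K * z.im ^ (-(1 / 4) : ℝ)) :
    ∃ C : ℝ, 0 ≤ C ∧ ∀ z : ℂ, 0 < z.im → z.im ≤ 1 → 1 / 4 ≤ ‖z‖ → ‖z‖ ≤ 2 → z.re ≤ 0 →
      |phi a z - phi (cj a) (-1 / (4 * z))| ≤ C * z.im ^ (3 / 4 : ℝ) := by
  obtain ⟨A, D, hA, hD, h1⟩ := one_step_raw4 h
  obtain ⟨C2, hC2⟩ := gs2_of_phi (cj a) (cj_ram a 1 (h.ram 1 (by norm_num))) K hK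
  refine ⟨A * (4 ^ 6 * (|C2| * 16 ^ (11 / 4 : ℝ))) + D * 4 ^ (1 / 4 : ℝ), by positivity, ?_⟩
  intro z hy hy1 hz1 hz2 hx
  have h2 := h1 z hy hy1 hx
  have h4 : (((2 * Real.pi * Bp Q lam) ^ 2 : ℝ) : ℂ) = 4 := by rw [hq]; norm_num
  rw [h4] at h2
  refine h2.trans ?_
  have hn : 0 < ‖z‖ := by linarith
  have him : (-1 / ((4 : ℂ) * z)).im = z.im / (4 * ‖z‖ ^ 2) := by
    have := step_im 4 z
    push_cast at this
    exact this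
  have hre : (-(I * (-1 / ((4 : ℂ) * z)))).re = z.im / (4 * ‖z‖ ^ 2) := by
    rw [← him]; simp
  have hyn : z.im ≤ ‖z‖ := (le_abs_self _).trans (Complex.abs_im_le_norm z)
  have hlow : z.im / 16 ≤ z.im / (4 * ‖z‖ ^ 2) := by
    apply div_le_div_of_nonneg_left hy.le (by positivity)
    nlinarith
  have hup : z.im / (4 * ‖z‖ ^ 2) ≤ 4 := by
    rw [div_le_iff₀ (by positivity)]
    nlinarith
  have h5 := hC2 _ (by rw [hre]; positivity) (by rw [hre]; exact hup)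
  rw [hre] at h5
  have h6 : ‖gs (cj a) 2 (-(I * (-1 / ((4 : ℂ) * z))))‖ ≤
      |C2| * (16 ^ (11 / 4 : ℝ) * z.im ^ (-(11 / 4) : ℝ)) := by
    refine h5.trans ?_
    have e1 : (z.im / (4 * ‖z‖ ^ 2)) ^ (-(11 / 4) : ℝ) ≤ (z.im / 16) ^ (-(11 / 4) : ℝ) :=
      Real.rpow_le_rpow_of_nonpos (by positivity) hlow (by norm_num)
    have e2 : (z.im / 16) ^ (-(11 / 4) : ℝ) = 16 ^ (11 / 4 : ℝ) * z.im ^ (-(11 / 4) : ℝ) := by
      rw [Real.div_rpow hy.le (by norm_num), Real.rpow_neg (by norm_num : (0:ℝ) ≤ 16)]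
      field_simp
    rw [← e2]
    exact mul_le_mul (le_abs_self _) e1 (by positivity) (abs_nonneg _)
  rw [add_mul]
  apply add_le_add
  · rw [mul_assoc A]
    apply mul_le_mul_of_nonneg_left _ hA
    have e3 : (‖z‖ ^ 6)⁻¹ ≤ 4 ^ 6 := by
      rw [← inv_pow]
      apply pow_le_pow_left₀ (by positivity)
      rw [inv_le_comm₀ hn (by norm_num)]
      linarith
    calc z.im ^ (7 / 2 : ℝ) * (‖z‖ ^ 6)⁻¹ * ‖gs (cj a) 2 (-(I * (-1 / ((4 : ℂ) * z))))‖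
        ≤ z.im ^ (7 / 2 : ℝ) * 4 ^ 6 * (|C2| * (16 ^ (11 / 4 : ℝ) * z.im ^ (-(11 / 4) : ℝ))) := by
          gcongr
      _ = 4 ^ 6 * (|C2| * 16 ^ (11 / 4 : ℝ)) * (z.im ^ (7 / 2 : ℝ) * z.im ^ (-(11 / 4) : ℝ)) := by
          ring
      _ = 4 ^ 6 * (|C2| * 16 ^ (11 / 4 : ℝ)) * z.im ^ (3 / 4 : ℝ) := by
          rw [← Real.rpow_add hy]; norm_num
  · rw [mul_assoc D]
    apply mul_le_mul_of_nonneg_left _ hD
    have e4 : ‖z‖ ^ (-(1 / 4) : ℝ) ≤ 4 ^ (1 / 4 : ℝ) := by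
      have := Real.rpow_le_rpow_of_nonpos (by norm_num : (0:ℝ) < 1 / 4) hz1
        (by norm_num : (-(1 / 4) : ℝ) ≤ 0)
      refine this.trans (le_of_eq ?_)
      rw [Real.rpow_neg (by norm_num), ← Real.inv_rpow (by norm_num)]
      norm_num
    have e5 : z.im ^ (7 / 8 : ℝ) ≤ z.im ^ (3 / 4 : ℝ) :=
      Real.rpow_le_rpow_of_exponent_ge hy hy1 (by norm_num)
    rw [mul_comm]
    exact mul_le_mul e4 e5 (by positivity) (by positivity)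

/-- both halves with the better error -/
theorem step_both_far4 (h : FEq a F Q lam mu ε) (hq : (2 * Real.pi * Bp Q lam) ^ 2 = 4) (K : ℝ)
    (hK : ∀ z : ℂ, 0 < z.im → z.im ≤ 1 → phi a z ≤ K * z.im ^ (-(1 / 4) : ℝ))
    (hK' : ∀ z : ℂ, 0 < z.im → z.im ≤ 1 → phi (cj a) z ≤ K * z.im ^ (-(1 / 4) : ℝ)) :
    ∃ C : ℝ, ∀ z : ℂ, 0 < z.im → z.im ≤ 1 → 1 / 4 ≤ ‖z‖ → ‖z‖ ≤ 2 →
      |phi a z - phi (cj a) (-1 / (4 * z))| ≤ C * z.im ^ (3 / 4 : ℝ) := by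
  obtain ⟨C1, hC1, h1⟩ := one_step_far4 h hq K hK'
  obtain ⟨C2, hC2, h2⟩ := one_step_far4 h.conj hq K (by rw [cj_cj]; exact hK)
  refine ⟨max C1 C2, fun z hy hy1 hz0 hz => ?_⟩
  have hp : 0 ≤ z.im ^ (3/4 : ℝ) := Real.rpow_nonneg hy.le _
  rcases le_total z.re 0 with hx | hx
  · exact (h1 z hy hy1 hz0 hz hx).trans (mul_le_mul_of_nonneg_right (le_max_left _ _) hp)
  · have h3 := h2 (-(starRingEnd ℂ) z) (by simpa using hy) (by simpa using hy1)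
      (by simpa using hz0) (by simpa using hz) (by simpa using hx)
    have e1 : (-(starRingEnd ℂ) z).im = z.im := by simp
    rw [cj_cj, e1] at h3
    have e2 : phi (cj a) (-(starRingEnd ℂ) z) = phi a z := by
      rw [phi_refl, cj_cj]
    have e3 : (-1 / ((4 : ℂ) * (-(starRingEnd ℂ) z))) =
        -(starRingEnd ℂ) (-1 / ((4 : ℂ) * z)) := by
      have e4 : (starRingEnd ℂ) (4 : ℂ) = 4 := by
        have := Complex.conj_ofReal 4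
        push_cast at this
        exact this
      rw [map_div₀, map_mul, e4, map_neg, map_one, mul_neg, div_neg]
    rw [e2, e3, phi_refl] at h3
    exact h3.trans (mul_le_mul_of_nonneg_right (le_max_right _ _) hp)

theorem Psi_step_far (h : FEq a F Q lam mu ε) (hq : (2 * Real.pi * Bp Q lam) ^ 2 = 4) (K : ℝ)
    (hK : ∀ z : ℂ, 0 < z.im → z.im ≤ 1 → phi a z ≤ K * z.im ^ (-(1 / 4) : ℝ))
    (hK' : ∀ z : ℂ, 0 < z.im → z.im ≤ 1 → phi (cj a) z ≤ K * z.im ^ (-(1 / 4) : ℝ)) :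
    ∃ C : ℝ, ∀ z : ℂ, 0 < z.im → z.im ≤ 1 → 1 / 4 ≤ ‖z‖ → ‖z‖ ≤ 2 →
      |Psi a z - Psi a (-1 / (4 * z))| ≤ C * z.im ^ (3 / 4 : ℝ) := by
  obtain ⟨C1, h1⟩ := step_both_far4 h hq K hK hK'
  obtain ⟨C2, h2⟩ := step_both_far4 h.conj hq K hK' (by rw [cj_cj]; exact hK)
  refine ⟨C1 + C2, fun z hy hy1 hz0 hz => ?_⟩
  have a1 := h1 z hy hy1 hz0 hz
  have a2 := h2 z hy hy1 hz0 hz
  rw [cj_cj] at a2
  unfold Psi
  rw [add_mul]
  refine le_trans ?_ (add_le_add a1 a2)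
  refine le_trans (le_of_eq ?_) (abs_add_le _ _)
  congr 1
  ring

/-- the step of `Psi_approx` with the explicit exponent `1/4` (`step_both` for `h` and `h.conj`) -/
theorem Psi_step14 (h : FEq a F Q lam mu ε) (hq : (2 * Real.pi * Bp Q lam) ^ 2 = 4) :
    ∃ C : ℝ, ∀ z : ℂ, 0 < z.im → z.im ≤ 1 → ‖z‖ ≤ 2 →
      |Psi a z - Psi a (-1 / (4 * z))| ≤ C * z.im ^ (1 / 4 : ℝ) := by
  obtain ⟨C1, h1⟩ := step_both h
  obtain ⟨C2, h2⟩ := step_both h.conj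
  refine ⟨C1 + C2, fun z hy hy1 hz => ?_⟩
  have a1 := h1 z hy hy1 hz
  have a2 := h2 z hy hy1 hz
  have h4 : (((2 * Real.pi * Bp Q lam) ^ 2 : ℝ) : ℂ) = 4 := by rw [hq]; norm_num
  rw [h4] at a1 a2
  rw [cj_cj] at a2
  unfold Psi
  rw [add_mul]
  refine le_trans ?_ (add_le_add a1 a2)
  refine le_trans (le_of_eq ?_) (abs_add_le _ _)
  congr 1
  ring

end Pool.Agent.H11.SC
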