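import Mathlib
import Pool.Agent.H11.SC4.StepFar
import Pool.Agent.H11.SC4.Two
import Pool.Agent.H11.SC4.Deep
import Pool.Agent.H11.SC4.Climb

/-!
# BDD4: `Psi` is bounded for `q = 4`, in two rounds

`Ψ = Psi a`, `Approx 4 Ψ` from `Psi_approx`.  `C ≥ 0` from `Psi_step14` (so `hstep` of `deep_bound`
holds with `C`), weights from `Psi_half`, `B1, M` from `deep_bound`.
Round 1: `U y = -C1 y^(-1/4)`, `C1 = 5 C √(2 B1)`, `Umax = 0`.  For a nondeep `z`, `s = 1/2 - |Re z|`,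
`y' = Im(-1/(4z))`: `geo4_step`, `pot_low`:
`U y' - U y ≥ C1 y^(-1/4) s/5 ≥ C1 y^(-1/4) √(y/(2B1))/5 = C y^(1/4)`.
`climb` gives `Ψ z ≤ M3 + (4/3) C1 y^(-1/4) ≤ K y^(-1/4)` for `y ≤ 1`; so do `phi a`, `phi (cj a) ≤ Ψ`.
`Psi_step_far` gives `C2`.
Round 2: `U y = C3 (min y 1)^(1/4)`, `Umax = C3`.  If `y' ≤ 1`: `pot_high`:
`U y' - U y ≥ C3 y^(1/4) s/4`; if `‖z‖ ≥ 1/4` this is `≥ C3 y^(1/4) √(y/(2B1))/4 ≥ C2 y^(3/4)` for
`C3 ≥ 4 √(2B1) C2`; if `‖z‖ < 1/4`, `s > 1/4` and it is `≥ C3 y^(1/4)/16 ≥ C y^(1/4)` for `C3 ≥ 16 C`.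
If `y' > 1`: `U y' - U y = C3 (1 - y^(1/4)) ≥ C3 (1 - (1/8)^(1/4)) ≥ 0.4 C3`, `≥ C y^(1/4), C2 y^(3/4)`.
`climb` gives `Ψ z ≤ M3` for `y ≤ 1` (`U ≥ 0`); for `y ≥ 1` use `top`.
-/

set_option autoImplicit false

namespace Pool.Agent.H11.SC

open Complex Pool.Agent.H11.Selberg

variable {a : ℕ → ℂ} {F : ℂ → ℂ} {Q : ℝ} {k : ℕ} {lam : Fin k → ℝ} {mu : Fin k → ℂ} {ε : ℂ}

theorem bdd4_sqrt (B1 y e : ℝ) (hB1 : 1 ≤ B1) (hy : 0 < y) :
    y ^ e * Real.sqrt (y / (2 * B1)) * Real.sqrt (2 * B1) = y ^ (e + 1 / 2) := by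
  have h1 : Real.sqrt (y / (2 * B1)) * Real.sqrt (2 * B1) = y ^ (1 / 2 : ℝ) := by
    rw [← Real.sqrt_mul' _ (by linarith : (0:ℝ) ≤ 2 * B1), div_mul_cancel₀ _ (by linarith : 2 * B1 ≠ 0),
      Real.sqrt_eq_rpow]
  rw [mul_assoc, h1, ← Real.rpow_add hy]

theorem bdd4_phi_nonneg (a : ℕ → ℂ) (z : ℂ) (hz : 0 < z.im) : 0 ≤ phi a z := by
  unfold phi
  positivity

/-- round one -/
theorem bdd4_one (Ψ : ℂ → ℝ) (h : Approx 4 Ψ) (B1 M C0 : ℝ) (hB1 : 1 ≤ B1) (hC0 : 0 ≤ C0)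
    (hdeep : ∀ z : ℂ, 0 < z.im → z.im ≤ 1 → B1 * ‖z - 1 / 2‖ ^ 2 ≤ z.im →
      ∀ K : ℝ, (∀ z' : ℂ, z.im ≤ z'.im → Ψ z' ≤ K) → Ψ z ≤ M + K / 4)
    (hC : ∀ z : ℂ, 0 < z.im → z.im ≤ 1 → ‖z‖ ≤ 2 →
      |Ψ z - Ψ (-1 / (4 * z))| ≤ C0 * z.im ^ (1 / 4 : ℝ)) :
    ∃ K : ℝ, ∀ z : ℂ, 0 < z.im → z.im ≤ 1 → Ψ z ≤ K * z.im ^ (-(1 / 4) : ℝ) := by
  have hsq : 0 ≤ Real.sqrt (2 * B1) := Real.sqrt_nonneg _
  set C1 : ℝ := 5 * C0 * Real.sqrt (2 * B1) with hC1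
  have hC10 : 0 ≤ C1 := by positivity
  obtain ⟨M3, hM3⟩ := climb Ψ h B1 M hB1 hdeep (fun y => -(C1 * y ^ (-(1 / 4) : ℝ))) 0
    (fun y hy => by
      have : 0 ≤ C1 * y ^ (-(1 / 4) : ℝ) := by positivity
      linarith)
    (fun y y' hy hyy' => by
      have : y' ^ (-(1 / 4) : ℝ) ≤ y ^ (-(1 / 4) : ℝ) :=
        Real.rpow_le_rpow_of_nonpos hy hyy' (by norm_num)
      have := mul_le_mul_of_nonneg_left this hC10
      linarith)
    (fun z hy hy8 hx h1 h2 => by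
      have hy1 : z.im ≤ 1 := by
        refine hy8.trans ?_
        rw [div_le_one (by positivity)]
        linarith
      have hn : ‖z‖ ≤ 2 := by
        have e1 := Complex.norm_le_abs_re_add_abs_im z
        rw [abs_of_pos hy] at e1
        linarith
      obtain ⟨h5, h6⟩ := geo4_step B1 hB1 z hy hy8 hx h1 h2
      have hs0 : 0 ≤ 1 / 2 - |z.re| := by linarith
      have hs1 : 1 / 2 - |z.re| ≤ 1 / 2 := by linarith [abs_nonneg z.re]
      have h7 := pot_low z.im _ _ hy hs0 hs1 h6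
      have h8 := hC z hy hy1 hn
      have h9 := le_abs_self (Ψ z - Ψ (-1 / (4 * z)))
      have h10 := bdd4_sqrt B1 z.im (-(1 / 4)) hB1 hy
      have e2 : (-(1 / 4) + 1 / 2 : ℝ) = 1 / 4 := by norm_num
      rw [e2] at h10
      have h11 : C0 * z.im ^ (1 / 4 : ℝ) ≤
          C1 * (z.im ^ (-(1 / 4) : ℝ) - (-1 / (4 * z)).im ^ (-(1 / 4) : ℝ)) := by
        calc C0 * z.im ^ (1 / 4 : ℝ)
            = C1 * (z.im ^ (-(1 / 4) : ℝ) * Real.sqrt (z.im / (2 * B1)) / 5) := by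
              rw [← h10, hC1]; ring
          _ ≤ C1 * (z.im ^ (-(1 / 4) : ℝ) * (1 / 2 - |z.re|) / 5) := by gcongr
          _ ≤ _ := by gcongr
      linarith)
  refine ⟨|M3| + 4 / 3 * C1, fun z hy hy1 => ?_⟩
  have h1 := hM3 z hy hy1
  have h2 : 1 ≤ z.im ^ (-(1 / 4) : ℝ) := Real.one_le_rpow_of_pos_of_le_one_of_nonpos hy hy1 (by norm_num)
  have h3 : M3 ≤ |M3| * z.im ^ (-(1 / 4) : ℝ) := by
    calc M3 ≤ |M3| * 1 := by rw [mul_one]; exact le_abs_self _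
      _ ≤ _ := by gcongr
  linarith

/-- round two -/
theorem bdd4_two (Ψ : ℂ → ℝ) (h : Approx 4 Ψ) (B1 M C0 D : ℝ) (hB1 : 1 ≤ B1) (hC0 : 0 ≤ C0)
    (hD : 0 ≤ D)
    (hdeep : ∀ z : ℂ, 0 < z.im → z.im ≤ 1 → B1 * ‖z - 1 / 2‖ ^ 2 ≤ z.im →
      ∀ K : ℝ, (∀ z' : ℂ, z.im ≤ z'.im → Ψ z' ≤ K) → Ψ z ≤ M + K / 4)
    (hC : ∀ z : ℂ, 0 < z.im → z.im ≤ 1 → ‖z‖ ≤ 2 →
      |Ψ z - Ψ (-1 / (4 * z))| ≤ C0 * z.im ^ (1 / 4 : ℝ))
    (hfar : ∀ z : ℂ, 0 < z.im → z.im ≤ 1 → 1 / 4 ≤ ‖z‖ → ‖z‖ ≤ 2 →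
      |Ψ z - Ψ (-1 / (4 * z))| ≤ D * z.im ^ (3 / 4 : ℝ)) :
    ∃ M : ℝ, ∀ z : ℂ, 0 < z.im → Ψ z ≤ M := by
  have hsq : 0 ≤ Real.sqrt (2 * B1) := Real.sqrt_nonneg _
  set C3 : ℝ := 4 * Real.sqrt (2 * B1) * D + 16 * C0 with hC3
  have hC30 : 0 ≤ C3 := by positivity
  obtain ⟨M3, hM3⟩ := climb Ψ h B1 M hB1 hdeep (fun y => C3 * (min y 1) ^ (1 / 4 : ℝ)) C3
    (fun y hy => by
      have h1 : (min y 1) ^ (1 / 4 : ℝ) ≤ 1 :=
        Real.rpow_le_one (le_min hy.le zero_le_one) (min_le_right _ _) (by norm_num)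
      calc C3 * (min y 1) ^ (1 / 4 : ℝ) ≤ C3 * 1 := by gcongr
        _ = C3 := mul_one _)
    (fun y y' hy hyy' => by
      have h1 : (min y 1) ^ (1 / 4 : ℝ) ≤ (min y' 1) ^ (1 / 4 : ℝ) :=
        Real.rpow_le_rpow (le_min hy.le zero_le_one) (min_le_min_right _ hyy') (by norm_num)
      exact mul_le_mul_of_nonneg_left h1 hC30)
    (fun z hy hy8 hx h1 h2 => by
      have hy88 : z.im ≤ 1 / 8 := by
        refine hy8.trans ?_
        apply one_div_le_one_div_of_le (by norm_num)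
        linarith
      have hy1 : z.im ≤ 1 := by linarith
      have hn : ‖z‖ ≤ 2 := by
        have e1 := Complex.norm_le_abs_re_add_abs_im z
        rw [abs_of_pos hy] at e1
        linarith
      obtain ⟨h5, h6⟩ := geo4_step B1 hB1 z hy hy8 hx h1 h2
      have hs0 : 0 ≤ 1 / 2 - |z.re| := by linarith
      have hs1 : 1 / 2 - |z.re| ≤ 1 / 2 := by linarith [abs_nonneg z.re]
      have h7 := pot_high z.im _ _ hy hs0 hs1 h6
      have h8 := hC z hy hy1 hn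
      have h9 := le_abs_self (Ψ z - Ψ (-1 / (4 * z)))
      have hmin : min z.im 1 = z.im := min_eq_left hy1
      have hyq : 0 ≤ z.im ^ (1 / 4 : ℝ) := Real.rpow_nonneg hy.le _
      rw [hmin]
      rcases le_or_gt (-1 / (4 * z)).im 1 with hc | hc
      · rw [min_eq_left hc]
        have h7' : C3 * (z.im ^ (1 / 4 : ℝ) * (1 / 2 - |z.re|) / 4) ≤
            C3 * ((-1 / (4 * z)).im ^ (1 / 4 : ℝ) - z.im ^ (1 / 4 : ℝ)) := by gcongr
        rcases le_or_gt (1 / 4) ‖z‖ with hz4 | hz4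
        · have h10 := hfar z hy hy1 hz4 hn
          have h11 := bdd4_sqrt B1 z.im (1 / 4) hB1 hy
          have e2 : (1 / 4 + 1 / 2 : ℝ) = 3 / 4 := by norm_num
          rw [e2] at h11
          have h12 : D * z.im ^ (3 / 4 : ℝ) ≤ C3 * (z.im ^ (1 / 4 : ℝ) * (1 / 2 - |z.re|) / 4) := by
            calc D * z.im ^ (3 / 4 : ℝ) = (4 * Real.sqrt (2 * B1) * D) *
                (z.im ^ (1 / 4 : ℝ) * Real.sqrt (z.im / (2 * B1)) / 4) := by
                  rw [← h11]; ring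
              _ ≤ C3 * (z.im ^ (1 / 4 : ℝ) * (1 / 2 - |z.re|) / 4) := by
                  apply mul_le_mul _ _ (by positivity) hC30
                  · rw [hC3]; linarith
                  · gcongr
          linarith
        · have hre : |z.re| ≤ 1 / 4 := (Complex.abs_re_le_norm z).trans hz4.le
          have h12 : C0 * z.im ^ (1 / 4 : ℝ) ≤ C3 * (z.im ^ (1 / 4 : ℝ) * (1 / 2 - |z.re|) / 4) := by
            calc C0 * z.im ^ (1 / 4 : ℝ) = (16 * C0) * (z.im ^ (1 / 4 : ℝ) * (1 / 4) / 4) := by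
                  ring
              _ ≤ C3 * (z.im ^ (1 / 4 : ℝ) * (1 / 2 - |z.re|) / 4) := by
                  apply mul_le_mul _ _ (by positivity) hC30
                  · rw [hC3]
                    have : 0 ≤ 4 * Real.sqrt (2 * B1) * D := by positivity
                    linarith
                  · have : 1 / 4 ≤ 1 / 2 - |z.re| := by linarith
                    gcongr
          linarith
      · rw [min_eq_right hc.le, Real.one_rpow]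
        have h13 : z.im ^ (1 / 4 : ℝ) ≤ 3 / 4 := by
          calc z.im ^ (1 / 4 : ℝ) ≤ ((3 / 4 : ℝ) ^ (4 : ℝ)) ^ (1 / 4 : ℝ) := by
                apply Real.rpow_le_rpow hy.le _ (by norm_num)
                refine hy88.trans ?_
                norm_num
            _ = 3 / 4 := by
                rw [← Real.rpow_mul (by norm_num)]
                norm_num
        have h14 : C0 * z.im ^ (1 / 4 : ℝ) ≤ C0 * 1 := by
          apply mul_le_mul_of_nonneg_left _ hC0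
          linarith
        have h15 : C3 * (1 / 4) ≤ C3 * (1 - z.im ^ (1 / 4 : ℝ)) := by
          apply mul_le_mul_of_nonneg_left _ hC30
          linarith
        have h16 : C0 ≤ C3 * (1 / 4) := by
          rw [hC3]
          have : 0 ≤ Real.sqrt (2 * B1) * D := by positivity
          linarith
        linarith)
  obtain ⟨M4, hM4⟩ := h.top 1 one_pos
  refine ⟨max M3 M4, fun z hz => ?_⟩
  rcases le_or_gt z.im 1 with h1 | h1
  · refine le_trans ?_ (le_max_left _ _)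
    have h2 := hM3 z hz h1
    have h3 : 0 ≤ C3 * (min z.im 1) ^ (1 / 4 : ℝ) :=
      mul_nonneg hC30 (Real.rpow_nonneg (le_min hz.le zero_le_one) _)
    linarith
  · exact (hM4 z h1.le).trans (le_max_right _ _)

theorem bounded_four (h : FEq a F Q lam mu ε) (hq : (2 * Real.pi * Bp Q lam) ^ 2 = 4)
    (c : ℕ → ℂ) (hc : TwoRel a c) :
    (∃ M : ℝ, ∀ z : ℂ, 0 < z.im → Psi a z ≤ M) ∧
    ∃ C : ℝ, (∀ z : ℂ, 0 < z.im → z.im ≤ 1 → ‖z‖ ≤ 2 →
        |Psi a z - Psi a (-1 / (4 * z))| ≤ C * z.im ^ (1 / 4 : ℝ)) ∧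
      (∀ z : ℂ, 0 < z.im → z.im ≤ 1 → 1 / 4 ≤ ‖z‖ → ‖z‖ ≤ 2 →
        |Psi a z - Psi a (-1 / (4 * z))| ≤ C * z.im ^ (3 / 4 : ℝ)) := by
  have hA : Approx 4 (Psi a) := by
    have := Psi_approx h
    rw [hq] at this
    exact this
  obtain ⟨C, hC⟩ := Psi_step14 h hq
  have hC' : ∀ z : ℂ, 0 < z.im → z.im ≤ 1 → ‖z‖ ≤ 2 →
      |Psi a z - Psi a (-1 / (4 * z))| ≤ |C| * z.im ^ (1 / 4 : ℝ) := by
    intro z hy hy1 hn
    exact (hC z hy hy1 hn).trans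
      (mul_le_mul_of_nonneg_right (le_abs_self _) (Real.rpow_nonneg hy.le _))
  obtain ⟨w, hw0, hw, hhalf⟩ := Psi_half hc (h.ram 1 one_pos)
  obtain ⟨B1, M, hB1, hdeep⟩ := deep_bound (Psi a) hA |C| (fun z hy hy1 hn => by
    refine (hC' z hy hy1 hn).trans ?_
    calc |C| * z.im ^ (1 / 4 : ℝ) ≤ |C| * 1 := by
          gcongr
          exact Real.rpow_le_one hy.le hy1 (by norm_num)
      _ = |C| := mul_one _) w hw0 hw hhalf
  obtain ⟨K, hK⟩ := bdd4_one (Psi a) hA B1 M |C| hB1 (abs_nonneg _) hdeep hC'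
  obtain ⟨D, hD⟩ := Psi_step_far h hq K
    (fun z hy hy1 => by
      refine le_trans ?_ (hK z hy hy1)
      have := bdd4_phi_nonneg (cj a) z hy
      unfold Psi
      linarith)
    (fun z hy hy1 => by
      refine le_trans ?_ (hK z hy hy1)
      have := bdd4_phi_nonneg a z hy
      unfold Psi
      linarith)
  have hD' : ∀ z : ℂ, 0 < z.im → z.im ≤ 1 → 1 / 4 ≤ ‖z‖ → ‖z‖ ≤ 2 →
      |Psi a z - Psi a (-1 / (4 * z))| ≤ |D| * z.im ^ (3 / 4 : ℝ) := by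
    intro z hy hy1 hn4 hn
    exact (hD z hy hy1 hn4 hn).trans
      (mul_le_mul_of_nonneg_right (le_abs_self _) (Real.rpow_nonneg hy.le _))
  refine ⟨bdd4_two (Psi a) hA B1 M |C| |D| hB1 (abs_nonneg _) (abs_nonneg _) hdeep hC' hD',
    max |C| |D|, ?_, ?_⟩
  · intro z hy hy1 hn
    exact (hC' z hy hy1 hn).trans
      (mul_le_mul_of_nonneg_right (le_max_left _ _) (Real.rpow_nonneg hy.le _))
  · intro z hy hy1 hn4 hn
    exact (hD' z hy hy1 hn4 hn).trans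
      (mul_le_mul_of_nonneg_right (le_max_right _ _) (Real.rpow_nonneg hy.le _))

end Pool.Agent.H11.SC
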