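import Mathlib
import Pool.Agent.H11.SC.State

/-!
# STATE4: for `q = 4` the orbit points are not deep in the cusps `± 1/2`

`w = v i`.  Type A: `z = (a w + b)/(c w + d)`, `a d - b c = 1`, `4 ∣ c`: `a` is odd, and
`z - 1/2 = ((2a - c) w + (2b - d))/(2 (c w + d))`, `Im z = v/‖c w + d‖²`, so
`Im z/‖z - 1/2‖² = 4v/‖(2a - c) w + (2b - d)‖² ≤ 4v/((2a-c)² v²) ≤ 1/v`, because `2a - c ≡ 2 mod 4`,
`|2a - c| ≥ 2`.  The same for `+1/2` with `2a + c`.
Type B: `z = (4 a w + b)/(4 (c w + d))`, `4 a d - b c = 1`: `c` is odd, and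
`z - 1/2 = ((4a - 2c) w + (b - 2d))/(4 (c w + d))`, `Im z = 4v/‖4 (c w + d)‖²`, so
`Im z/‖z - 1/2‖² = 4v/‖(4a - 2c) w + (b - 2d)‖² ≤ 1/v`, because `|4a - 2c| ≥ 2`.  The same for `+1/2`.
-/

set_option autoImplicit false

namespace Pool.Agent.H11.SC

open Complex

/-- the general estimate of this module -/
theorem state4_gen (a b c d v s e : ℝ) (hv : 0 < v) (hc : c ≠ 0) (hdet : a * d - b * c = e)
    (h : 4 * e ≤ (2 * a - s * c) ^ 2) :
    ((a * (v * I) + b) / (c * (v * I) + d) : ℂ).im ≤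
      1 / v * ‖((a * (v * I) + b) / (c * (v * I) + d) : ℂ) - s / 2‖ ^ 2 := by
  have hden : (c * (v * I) + d : ℂ) ≠ 0 := lin_ne hv hc
  have hN : 0 < c ^ 2 * v ^ 2 + d ^ 2 := by positivity
  rw [frac_im, hdet]
  have h1 : ((a * (v * I) + b) / (c * (v * I) + d) : ℂ) - s / 2 =
      (((2 * a - s * c : ℝ) : ℂ) * (v * I) + ((2 * b - s * d : ℝ) : ℂ)) /
        (((2 * c : ℝ) : ℂ) * (v * I) + ((2 * d : ℝ) : ℂ)) := by
    have hden2 : (((2 * c : ℝ) : ℂ) * (v * I) + ((2 * d : ℝ) : ℂ)) ≠ 0 := by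
      have : (((2 * c : ℝ) : ℂ) * (v * I) + ((2 * d : ℝ) : ℂ)) = 2 * (c * (v * I) + d : ℂ) := by
        push_cast
        ring
      rw [this]
      exact mul_ne_zero two_ne_zero hden
    rw [div_sub_div _ _ hden two_ne_zero, div_eq_div_iff (mul_ne_zero hden two_ne_zero) hden2]
    push_cast
    ring
  have h2 : ∀ x y : ℝ, ‖((x : ℂ) * (v * I) + (y : ℂ))‖ ^ 2 = x ^ 2 * v ^ 2 + y ^ 2 := by
    intro x y
    rw [Complex.sq_norm, Complex.normSq_apply]
    simp
    ring
  rw [h1, norm_div, div_pow, h2, h2]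
  have e1 : (2 * c) ^ 2 * v ^ 2 + (2 * d) ^ 2 = 4 * (c ^ 2 * v ^ 2 + d ^ 2) := by ring
  rw [e1]
  have e2 : 1 / v * (((2 * a - s * c) ^ 2 * v ^ 2 + (2 * b - s * d) ^ 2) /
      (4 * (c ^ 2 * v ^ 2 + d ^ 2))) =
      (((2 * a - s * c) ^ 2 * v ^ 2 + (2 * b - s * d) ^ 2) / (4 * v)) / (c ^ 2 * v ^ 2 + d ^ 2) := by
    field_simp
  rw [e2]
  apply div_le_div_of_nonneg_right _ hN.le
  rw [le_div_iff₀ (by positivity)]
  have h3 := mul_le_mul_of_nonneg_right h (sq_nonneg v)
  nlinarith [sq_nonneg (2 * b - s * d)]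

theorem St.cusp {v r0 : ℝ} {z : ℂ} {u : ℝ} (hv : 0 < v) (h : St 4 v r0 z u) :
    z.im ≤ 1 / v * ‖z - 1 / 2‖ ^ 2 ∧ z.im ≤ 1 / v * ‖z + 1 / 2‖ ^ 2 := by
  have key : ∀ s : ℤ, (s = 1 ∨ s = -1) → z.im ≤ 1 / v * ‖z - ((s : ℝ) : ℂ) / 2‖ ^ 2 := by
    intro s hs
    rcases h with ⟨a, b, c, d, hdet, hdvd, hc, rfl, -⟩ | ⟨a, b, c, d, hdet, hc, rfl, -⟩
    · have h0 := state4_gen a b c d v s 1 hv (by exact_mod_cast hc) (by exact_mod_cast hdet) (by
        obtain ⟨f, rfl⟩ := hdvd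
        have h1 : (2 * a - s * ((4 : ℕ) * f)) ≠ 0 := by
          intro h2
          have h3 : a = 2 * (s * f) := by push_cast at h2; linarith
          have h4 : (2 : ℤ) ∣ 1 := by
            rw [← hdet, h3]
            push_cast
            exact ⟨s * f * d - b * (2 * f), by ring⟩
          omega
        have h5 : (4 : ℤ) * 1 ≤ (2 * a - s * ((4 : ℕ) * f)) ^ 2 := by
          have h6 : (2 * a - s * ((4 : ℕ) * f)) = 2 * (a - 2 * (s * f)) := by push_cast; ring
          have h7 : a - 2 * (s * f) ≠ 0 := by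
            intro h8
            apply h1
            rw [h6, h8, mul_zero]
          have h9 := Int.one_le_abs h7
          rw [h6]
          nlinarith [sq_abs (a - 2 * (s * f))]
        exact_mod_cast h5)
      push_cast at h0 ⊢
      exact h0
    · have h0 := state4_gen (4 * a) b (4 * c) (4 * d) v s 4 hv
        (mul_ne_zero four_ne_zero (by exact_mod_cast hc)) (by
          have h1 : ((4 : ℕ) : ℝ) * a * d - b * c = 1 := by exact_mod_cast hdet
          push_cast at h1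
          linear_combination 4 * h1) (by
        have h7 : 2 * a - s * c ≠ 0 := by
          intro h8
          have h9 : c = 2 * (s * a) := by
            rcases hs with rfl | rfl <;> linarith
          have h4 : (2 : ℤ) ∣ 1 := by
            rw [← hdet, h9]
            push_cast
            exact ⟨2 * a * d - b * (s * a), by ring⟩
          omega
        have h9 := Int.one_le_abs h7
        have h5 : (4 : ℤ) * 4 ≤ (2 * (4 * a) - s * (4 * c)) ^ 2 := by
          have h6 : (2 * (4 * a) - s * (4 * c)) = 4 * (2 * a - s * c) := by ring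
          rw [h6]
          nlinarith [sq_abs (2 * a - s * c)]
        exact_mod_cast h5)
      have e1 : (((4 : ℕ) : ℂ) * a * (v * I) + b) / (((4 : ℕ) : ℂ) * (c * (v * I) + d)) =
          ((((4 * a : ℝ)) : ℂ) * (v * I) + ((b : ℝ) : ℂ)) /
            ((((4 * c : ℝ)) : ℂ) * (v * I) + ((4 * d : ℝ) : ℂ)) := by
        push_cast
        congr 1
        ring
      rw [e1]
      push_cast at h0 ⊢
      exact h0
  constructor
  · have := key 1 (Or.inl rfl)
    push_cast at this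
    exact this
  · have := key (-1) (Or.inr rfl)
    have e1 : z - (((-1 : ℤ) : ℝ) : ℂ) / 2 = z + 1 / 2 := by
      push_cast
      ring
    rw [e1] at this
    exact this

end Pool.Agent.H11.SC
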