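import Mathlib
import Pool.Agent.H11.SC.Path
import Pool.Agent.H11.SC4.Geo4
import Pool.Agent.H11.SC4.State4

/-!
# PATH4: the values of `Ψ` at the orbit points, `q = 4` (see Pool/Agent/H11/SC/Path.lean)

`C ≥ 0` w.l.o.g.  `W y = C'' y^(1/4)`, `C'' = max (16 C) (4 √2 C)`.
STEP INEQUALITY: if `|Re z| ≤ 1/2`, `0 < y = Im z ≤ 1/8`, `y < ‖z ∓ 1/2‖²`, then with `z' = -1/(4z)`,
`|Ψ z - Ψ z'| ≤ W(Im z') - W y`: `geo4_step` with `B1 = 1`, `pot_high`: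
`W y' - W y ≥ C'' y^(1/4) s/4`; if `‖z‖ ≥ 1/4` use `s ≥ √(y/2)` and `hfar`; if `‖z‖ < 1/4` use `s > 1/4`
and `h14`.
Let `n ≥ 2`, `r0 ∈ [n, n+1]`, `Y = v/(n-1)²`, `D = (C + C'') Y^(1/4)`, and `y0 > 0`.
CLAIM: every state `St 4 v r0 z u` with `|Re z| ≤ 1/2`, `|u| ≤ 2`, `Im z ≥ y0` has
`Ψ z ≥ Ψ (v i) - D + W (Im z)`.  Induction on `j`: for `Im z ≥ κ^(-j)/v`, `κ = 1 + (3/2) √(y0/2) > 1`.
Let `w = -1/(4z)` and use `St.next` (`q = 4`).
Terminal: `w = v i + k`, `-(u/4) = r0 + k`, `|u/4| ≤ 1/2`, so `|k| ≥ n - 1` and `geo4_last` gives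
`Im z ≤ Y`; `Ψ z ≥ Ψ w - C y^(1/4) ≥ Ψ(v i) - D + W y` (`h14`, `Approx.shift`).
Not terminal: `w - m` is a state for every integer `m` with `m + u/4 ≠ 0`, so `Im w ≤ 1/v` (`St.im`).
`St.cusp` and `geo4_path`: `|Re w| > 1/2`; `m = round (Re w) ≠ 0`, so `|m + u/4| ≥ 1/2`,
`u' = -1/(m + u/4)`, `|u'| ≤ 2`, `|Re w - m| ≤ 1/2`.  `Im w ≥ κ Im z`.  If `j = 0` contradiction (`Im z ≥ 1/v`);
otherwise by induction and the step inequality
`Ψ z ≥ Ψ (w - m) - (W(Im w) - W y) ≥ Ψ (v i) - D + W y`.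
CONCLUSION: `D → 0` as `n → ∞`, so for `n ≥ n0`, `Ψ z ≥ Ψ(v i)/2`.  Start: `St.start`,
`m = round (Re γ(vi))`, `r0 = -d/c ∈ [n, n+1]`, `u = 0`, `y0 = Im z`.
-/

set_option autoImplicit false

namespace Pool.Agent.H11.SC

open Complex

/-- one step up costs at most the increase of the potential -/
theorem path4_step (Ψ : ℂ → ℝ) (C : ℝ) (hC : 0 ≤ C)
    (h14 : ∀ z : ℂ, 0 < z.im → z.im ≤ 1 → ‖z‖ ≤ 2 →
      |Ψ z - Ψ (-1 / (4 * z))| ≤ C * z.im ^ (1 / 4 : ℝ))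
    (hfar : ∀ z : ℂ, 0 < z.im → z.im ≤ 1 → 1 / 4 ≤ ‖z‖ → ‖z‖ ≤ 2 →
      |Ψ z - Ψ (-1 / (4 * z))| ≤ C * z.im ^ (3 / 4 : ℝ))
    (z : ℂ) (hy : 0 < z.im) (hy1 : z.im ≤ 1 / 8) (hx : |z.re| ≤ 1 / 2)
    (h1 : z.im < ‖z - 1 / 2‖ ^ 2) (h2 : z.im < ‖z + 1 / 2‖ ^ 2) :
    |Ψ z - Ψ (-1 / (4 * z))| ≤
        16 * C * ((-1 / (4 * z)).im ^ (1 / 4 : ℝ) - z.im ^ (1 / 4 : ℝ)) ∧
      z.im * (1 + 3 / 2 * Real.sqrt (z.im / 2)) ≤ (-1 / (4 * z)).im := by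
  obtain ⟨hs, hg⟩ := geo4_step 1 le_rfl z hy (by simpa using hy1) hx (by simpa using h1)
    (by simpa using h2)
  rw [mul_one] at hs
  have hs0 : 0 ≤ 1 / 2 - |z.re| := by linarith
  have hs1 : 1 / 2 - |z.re| ≤ 1 / 2 := by linarith [abs_nonneg z.re]
  have hpot := pot_high z.im (-1 / (4 * z)).im (1 / 2 - |z.re|) hy hs0 hs1 hg
  have hnorm : ‖z‖ ≤ 2 := by
    refine (Complex.norm_le_abs_re_add_abs_im z).trans ?_
    rw [abs_of_pos hy]; linarith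
  have hy14 : 0 < z.im ^ (1 / 4 : ℝ) := Real.rpow_pos_of_pos hy _
  refine ⟨?_, ?_⟩
  · refine le_trans ?_ (mul_le_mul_of_nonneg_left hpot (by positivity))
    rcases le_or_gt (1 / 4) ‖z‖ with hz | hz
    · refine (hfar z hy (by linarith) hz hnorm).trans ?_
      have e1 : z.im ^ (3 / 4 : ℝ) = z.im ^ (1 / 4 : ℝ) * Real.sqrt z.im := by
        rw [Real.sqrt_eq_rpow, ← Real.rpow_add hy]; norm_num
      have e2 : Real.sqrt z.im ≤ 4 * (1 / 2 - |z.re|) := by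
        have e3 : Real.sqrt z.im ≤ 4 * Real.sqrt (z.im / 2) := by
          rw [Real.sqrt_le_iff]
          refine ⟨by positivity, ?_⟩
          rw [mul_pow, Real.sq_sqrt (by positivity)]
          linarith
        linarith
      have e4 : z.im ^ (1 / 4 : ℝ) * Real.sqrt z.im ≤
          z.im ^ (1 / 4 : ℝ) * (4 * (1 / 2 - |z.re|)) := mul_le_mul_of_nonneg_left e2 hy14.le
      have e5 := mul_le_mul_of_nonneg_left e4 hC
      rw [e1]
      refine e5.trans (le_of_eq ?_)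
      ring
    · refine (h14 z hy (by linarith) hnorm).trans ?_
      have e1 : 1 / 4 ≤ 1 / 2 - |z.re| := by
        have := Complex.abs_re_le_norm z
        linarith
      have e2 : z.im ^ (1 / 4 : ℝ) * (1 / 4) ≤ z.im ^ (1 / 4 : ℝ) * (1 / 2 - |z.re|) :=
        mul_le_mul_of_nonneg_left e1 hy14.le
      have e3 := mul_le_mul_of_nonneg_left e2 hC
      have e4 : 16 * C * (z.im ^ (1 / 4 : ℝ) * (1 / 2 - |z.re|) / 4) =
          4 * (C * (z.im ^ (1 / 4 : ℝ) * (1 / 2 - |z.re|))) := by ring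
      rw [e4]
      linarith
  · refine le_trans ?_ hg
    have := mul_le_mul_of_nonneg_left hs hy.le
    nlinarith

/-- one step along the path of states -/
theorem path4_one (Ψ : ℂ → ℝ) (h : Approx 4 Ψ) (C : ℝ) (hC : 0 ≤ C)
    (h14 : ∀ z : ℂ, 0 < z.im → z.im ≤ 1 → ‖z‖ ≤ 2 →
      |Ψ z - Ψ (-1 / (4 * z))| ≤ C * z.im ^ (1 / 4 : ℝ))
    (hfar : ∀ z : ℂ, 0 < z.im → z.im ≤ 1 → 1 / 4 ≤ ‖z‖ → ‖z‖ ≤ 2 →
      |Ψ z - Ψ (-1 / (4 * z))| ≤ C * z.im ^ (3 / 4 : ℝ))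
    (v : ℝ) (hv : 10 ^ 4 ≤ v) (n : ℕ) (hn : 2 ≤ n) (r0 : ℝ) (hr0 : (n : ℝ) ≤ r0)
    (y0 : ℝ) (hy0 : 0 < y0) (z : ℂ) (u : ℝ) (hst : St 4 v r0 z u) (hre : |z.re| ≤ 1 / 2)
    (hu : |u| ≤ 2) (hz0 : y0 ≤ z.im) :
    Ψ (v * I) - 17 * C * (v / ((n : ℝ) - 1) ^ 2) ^ (1 / 4 : ℝ) + 16 * C * z.im ^ (1 / 4 : ℝ) ≤ Ψ z ∨
    ∃ (z' : ℂ) (u' : ℝ), St 4 v r0 z' u' ∧ |z'.re| ≤ 1 / 2 ∧ |u'| ≤ 2 ∧ z'.im ≤ 1 / v ∧
      (1 + 3 / 2 * Real.sqrt (y0 / 2)) * z.im ≤ z'.im ∧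
      Ψ z' - 16 * C * z'.im ^ (1 / 4 : ℝ) ≤ Ψ z - 16 * C * z.im ^ (1 / 4 : ℝ) := by
  have hv0 : 0 < v := by linarith [show (0 : ℝ) < 10 ^ 4 by norm_num]
  obtain ⟨him0, him1⟩ := hst.im (by norm_num) hv0
  have h1v : 1 / v ≤ 1 / 8 := by
    apply one_div_le_one_div_of_le (by norm_num)
    linarith [show (8 : ℝ) ≤ 10 ^ 4 by norm_num]
  have hnorm : ‖z‖ ≤ 2 := by
    refine (Complex.norm_le_abs_re_add_abs_im z).trans ?_
    rw [abs_of_pos him0]; linarith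
  rcases hst.next (by norm_num) hv0 with ⟨k, hk1, hk2⟩ | hnext
  · left
    have hk1' : -1 / (4 * z) = v * I + k := by rw [← hk1]; norm_num
    have hk2' : -(u / 4) = r0 + k := by rw [← hk2]; norm_num
    have hkabs : (n : ℝ) - 1 ≤ |(k : ℝ)| := by
      have h1 : |u / 4| ≤ 1 / 2 := by
        rw [abs_div, abs_of_pos (show (0 : ℝ) < 4 by norm_num)]
        linarith
      have h2 := (abs_le.mp h1).1
      have h3 : -(k : ℝ) ≤ |(k : ℝ)| := neg_le_abs _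
      linarith
    have hlast := geo4_last v hv z him0 k n hn hkabs hk1'
    have hs := h14 z him0 (by linarith) hnorm
    rw [hk1', h.shift] at hs
    have h4 := (abs_le.mp hs).1
    have h5 : z.im ^ (1 / 4 : ℝ) ≤ (v / ((n : ℝ) - 1) ^ 2) ^ (1 / 4 : ℝ) :=
      Real.rpow_le_rpow him0.le hlast (by norm_num)
    have h6 := mul_le_mul_of_nonneg_left h5 hC
    linarith
  · right
    have hnext' : ∀ m : ℤ, (m : ℝ) + u / 4 ≠ 0 →
        St 4 v r0 (-1 / (4 * z) - m) (-1 / (m + u / 4)) := by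
      intro m hm
      have := hnext m (by exact_mod_cast hm)
      exact_mod_cast this
    obtain ⟨m', hm'⟩ := exists_int_add_ne (u / 4)
    have hst' := (hnext' m' hm').im (by norm_num) hv0
    have hwim : (-1 / (4 * z)).im ≤ 1 / v := by
      have := hst'.2
      simpa using this
    obtain ⟨hc1, hc2⟩ := hst.cusp hv0
    have hpathre := geo4_path v hv z him0 him1 hre hc1 hc2 hwim
    have hcusp : ∀ x : ℝ, z.im ≤ 1 / v * x → z.im < x := by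
      intro x hx
      have h8 : 0 < x := by
        by_contra hcon
        push Not at hcon
        have : 1 / v * x ≤ 0 := mul_nonpos_of_nonneg_of_nonpos (by positivity) hcon
        linarith
      have : 1 / v * x ≤ 1 / 8 * x := mul_le_mul_of_nonneg_right h1v h8.le
      linarith
    obtain ⟨hstep, hgr⟩ := path4_step Ψ C hC h14 hfar z him0 (by linarith) hre
      (hcusp _ hc1) (hcusp _ hc2)
    set w : ℂ := -1 / (4 * z) with hwdef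
    have hrd := abs_sub_round w.re
    have hm0 : round w.re ≠ 0 := by
      intro h0
      rw [h0] at hrd
      simp only [Int.cast_zero, sub_zero] at hrd
      linarith
    have hm1 : (1 : ℝ) ≤ |((round w.re : ℤ) : ℝ)| := by
      have : (1 : ℤ) ≤ |round w.re| := Int.one_le_abs hm0
      exact_mod_cast this
    have hmu : 1 / 2 ≤ |((round w.re : ℤ) : ℝ) + u / 4| := by
      have h1 : |u / 4| ≤ 1 / 2 := by
        rw [abs_div, abs_of_pos (show (0 : ℝ) < 4 by norm_num)]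
        linarith
      have h2 : |((round w.re : ℤ) : ℝ)| ≤ |((round w.re : ℤ) : ℝ) + u / 4| + |u / 4| := by
        have := abs_sub (((round w.re : ℤ) : ℝ) + u / 4) (u / 4)
        rwa [add_sub_cancel_right] at this
      linarith
    have hmu0 : ((round w.re : ℤ) : ℝ) + u / 4 ≠ 0 := by
      intro h0
      rw [h0, abs_zero] at hmu
      norm_num at hmu
    have hre2 : (w - ((round w.re : ℤ) : ℂ)).re = w.re - (round w.re : ℤ) := by simp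
    have him2 : (w - ((round w.re : ℤ) : ℂ)).im = w.im := by simp
    have hΨw : Ψ (w - ((round w.re : ℤ) : ℂ)) = Ψ w := by
      have := h.shift (w - ((round w.re : ℤ) : ℂ)) (round w.re)
      rw [← this]; congr 1; ring
    refine ⟨w - ((round w.re : ℤ) : ℂ), _, hnext' _ hmu0, by rw [hre2]; exact hrd, ?_, ?_, ?_, ?_⟩
    · rw [abs_div, abs_neg, abs_one, div_le_iff₀ (by linarith)]
      linarith
    · rw [him2]; exact hwim
    · rw [him2]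
      refine le_trans ?_ hgr
      rw [mul_comm]
      have : Real.sqrt (y0 / 2) ≤ Real.sqrt (z.im / 2) := Real.sqrt_le_sqrt (by linarith)
      have h9 := mul_le_mul_of_nonneg_left this him0.le
      nlinarith
    · rw [him2, hΨw]
      have := (abs_le.mp hstep).1
      linarith

theorem path4_claim (Ψ : ℂ → ℝ) (h : Approx 4 Ψ) (C : ℝ) (hC : 0 ≤ C)
    (h14 : ∀ z : ℂ, 0 < z.im → z.im ≤ 1 → ‖z‖ ≤ 2 →
      |Ψ z - Ψ (-1 / (4 * z))| ≤ C * z.im ^ (1 / 4 : ℝ))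
    (hfar : ∀ z : ℂ, 0 < z.im → z.im ≤ 1 → 1 / 4 ≤ ‖z‖ → ‖z‖ ≤ 2 →
      |Ψ z - Ψ (-1 / (4 * z))| ≤ C * z.im ^ (3 / 4 : ℝ))
    (v : ℝ) (hv : 10 ^ 4 ≤ v) (n : ℕ) (hn : 2 ≤ n) (r0 : ℝ) (hr0 : (n : ℝ) ≤ r0)
    (y0 : ℝ) (hy0 : 0 < y0) (j : ℕ) : ∀ (z : ℂ) (u : ℝ), St 4 v r0 z u → |z.re| ≤ 1 / 2 →
    |u| ≤ 2 → y0 ≤ z.im → 1 / ((1 + 3 / 2 * Real.sqrt (y0 / 2)) ^ j * v) ≤ z.im →
    Ψ (v * I) - 17 * C * (v / ((n : ℝ) - 1) ^ 2) ^ (1 / 4 : ℝ) + 16 * C * z.im ^ (1 / 4 : ℝ) ≤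
      Ψ z := by
  have hv0 : 0 < v := by linarith [show (0 : ℝ) < 10 ^ 4 by norm_num]
  have hsq : 0 < Real.sqrt (y0 / 2) := Real.sqrt_pos.2 (by positivity)
  have hκ : 1 < 1 + 3 / 2 * Real.sqrt (y0 / 2) := by linarith
  set κ : ℝ := 1 + 3 / 2 * Real.sqrt (y0 / 2) with hκdef
  induction j with
  | zero =>
    intro z u hst hre hu hz0 hlow
    obtain ⟨him0, him1⟩ := hst.im (by norm_num) hv0
    rcases path4_one Ψ h C hC h14 hfar v hv n hn r0 hr0 y0 hy0 z u hst hre hu hz0 with h1 | h1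
    · exact h1
    · exfalso
      obtain ⟨z', u', -, -, -, hi1, hi2, -⟩ := h1
      rw [pow_zero, one_mul] at hlow
      rw [← hκdef] at hi2
      nlinarith
  | succ j ih =>
    intro z u hst hre hu hz0 hlow
    obtain ⟨him0, him1⟩ := hst.im (by norm_num) hv0
    rcases path4_one Ψ h C hC h14 hfar v hv n hn r0 hr0 y0 hy0 z u hst hre hu hz0 with h1 | h1
    · exact h1
    · obtain ⟨z', u', hst', hre', hu', hi1, hi2, hi3⟩ := h1
      rw [← hκdef] at hi2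
      have hz' : y0 ≤ z'.im := by nlinarith
      have hlow' : 1 / (κ ^ j * v) ≤ z'.im := by
        refine le_trans ?_ hi2
        have e : 1 / (κ ^ j * v) = κ * (1 / (κ ^ (j + 1) * v)) := by
          rw [pow_succ]; field_simp
        rw [e]
        exact mul_le_mul_of_nonneg_left hlow (by linarith)
      have := ih z' u' hst' hre' hu' hz' hlow'
      linarith

theorem orbit_lower_four (Ψ : ℂ → ℝ) (h : Approx 4 Ψ) (C : ℝ)
    (h14 : ∀ z : ℂ, 0 < z.im → z.im ≤ 1 → ‖z‖ ≤ 2 →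
      |Ψ z - Ψ (-1 / (4 * z))| ≤ C * z.im ^ (1 / 4 : ℝ))
    (hfar : ∀ z : ℂ, 0 < z.im → z.im ≤ 1 → 1 / 4 ≤ ‖z‖ → ‖z‖ ≤ 2 →
      |Ψ z - Ψ (-1 / (4 * z))| ≤ C * z.im ^ (3 / 4 : ℝ))
    (v : ℝ) (hv : 10 ^ 4 ≤ v) (hpos : 0 < Ψ (v * I)) :
    ∃ n0 : ℕ, ∀ n : ℕ, n0 ≤ n → ∀ a b c d : ℤ, a * d - b * c = 1 → (4 : ℤ) ∣ c → 0 < c →
      -((n : ℤ) + 1) * c ≤ d → d ≤ -(n : ℤ) * c →
      Ψ (v * I) / 2 ≤ Ψ ((a * (v * I) + b) / (c * (v * I) + d)) := by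
  have hv0 : 0 < v := by linarith [show (0 : ℝ) < 10 ^ 4 by norm_num]
  set C' : ℝ := max C 0 with hCdef
  have hC : 0 ≤ C' := le_max_right _ _
  have h14' : ∀ z : ℂ, 0 < z.im → z.im ≤ 1 → ‖z‖ ≤ 2 →
      |Ψ z - Ψ (-1 / (4 * z))| ≤ C' * z.im ^ (1 / 4 : ℝ) := by
    intro z h1 h2 h3
    refine (h14 z h1 h2 h3).trans ?_
    exact mul_le_mul_of_nonneg_right (le_max_left _ _) (Real.rpow_nonneg h1.le _)
  have hfar' : ∀ z : ℂ, 0 < z.im → z.im ≤ 1 → 1 / 4 ≤ ‖z‖ → ‖z‖ ≤ 2 →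
      |Ψ z - Ψ (-1 / (4 * z))| ≤ C' * z.im ^ (3 / 4 : ℝ) := by
    intro z h1 h2 h3 h4
    refine (hfar z h1 h2 h3 h4).trans ?_
    exact mul_le_mul_of_nonneg_right (le_max_left _ _) (Real.rpow_nonneg h1.le _)
  -- the error tends to zero
  have htend : Filter.Tendsto (fun n : ℕ => 17 * C' * (v / ((n : ℝ) - 1) ^ 2) ^ (1 / 4 : ℝ))
      Filter.atTop (nhds 0) := by
    have h1 : Filter.Tendsto (fun n : ℕ => ((n : ℝ) - 1)) Filter.atTop Filter.atTop :=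
      Filter.tendsto_atTop_add_const_right _ (-1) tendsto_natCast_atTop_atTop
    have h2 : Filter.Tendsto (fun n : ℕ => ((n : ℝ) - 1) ^ 2) Filter.atTop Filter.atTop :=
      (Filter.tendsto_pow_atTop (by norm_num)).comp h1
    have h3 : Filter.Tendsto (fun n : ℕ => v / ((n : ℝ) - 1) ^ 2) Filter.atTop (nhds 0) :=
      h2.const_div_atTop v
    have h4 : Filter.Tendsto (fun n : ℕ => (v / ((n : ℝ) - 1) ^ 2) ^ (1 / 4 : ℝ)) Filter.atTop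
        (nhds ((0 : ℝ) ^ (1 / 4 : ℝ))) := h3.rpow_const (Or.inr (by norm_num))
    rw [Real.zero_rpow (by norm_num)] at h4
    simpa using h4.const_mul (17 * C')
  have hev : ∀ᶠ n : ℕ in Filter.atTop,
      17 * C' * (v / ((n : ℝ) - 1) ^ 2) ^ (1 / 4 : ℝ) < Ψ (v * I) / 2 :=
    htend.eventually_lt_const (by linarith)
  obtain ⟨n1, hn1⟩ := Filter.eventually_atTop.mp hev
  refine ⟨max n1 2, ?_⟩
  intro n hn a b c d hdet hqc hc hd1 hd2
  have hn2 : 2 ≤ n := (le_max_right _ _).trans hn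
  have hsmall := hn1 n ((le_max_left _ _).trans hn)
  set z0 : ℂ := (a * (v * I) + b) / (c * (v * I) + d) with hz0
  have hcR : (0 : ℝ) < c := by exact_mod_cast hc
  have hr0 : (n : ℝ) ≤ -(d : ℝ) / c := by
    rw [le_div_iff₀ hcR]
    have : (d : ℝ) ≤ -(n : ℝ) * c := by exact_mod_cast hd2
    linarith
  have hst : St 4 v (-(d : ℝ) / c) (z0 - ((round z0.re : ℤ) : ℂ)) 0 :=
    St.start a b c d (round z0.re) hdet (by exact_mod_cast hqc) hc.ne' hv0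
  have hre : (z0 - ((round z0.re : ℤ) : ℂ)).re = z0.re - (round z0.re : ℤ) := by simp
  obtain ⟨him0, -⟩ := hst.im (by norm_num) hv0
  set y0 : ℝ := (z0 - ((round z0.re : ℤ) : ℂ)).im with hy0
  have hκ : 1 < 1 + 3 / 2 * Real.sqrt (y0 / 2) := by
    have : 0 < Real.sqrt (y0 / 2) := Real.sqrt_pos.2 (by positivity)
    linarith
  obtain ⟨j, hj⟩ : ∃ j : ℕ, 1 / ((1 + 3 / 2 * Real.sqrt (y0 / 2)) ^ j * v) ≤ y0 := by
    obtain ⟨j, hj⟩ := pow_unbounded_of_one_lt (1 / (y0 * v)) hκ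
    refine ⟨j, ?_⟩
    rw [div_le_iff₀ (by positivity)]
    rw [div_lt_iff₀ (by positivity)] at hj
    nlinarith
  have hfin := path4_claim Ψ h C' hC h14' hfar' v hv n hn2 _ hr0 y0 him0 j _ 0 hst
    (by rw [hre]; exact abs_sub_round z0.re) (by simp) le_rfl hj
  have hΨ : Ψ (z0 - ((round z0.re : ℤ) : ℂ)) = Ψ z0 := by
    have := h.shift (z0 - ((round z0.re : ℤ) : ℂ)) (round z0.re)
    rw [← this]; congr 1; ring
  rw [hΨ] at hfin
  have hnn : 0 ≤ 16 * C' * (z0 - ((round z0.re : ℤ) : ℂ)).im ^ (1 / 4 : ℝ) :=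
    mul_nonneg (by positivity) (Real.rpow_nonneg him0.le _)
  linarith

end Pool.Agent.H11.SC
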