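import Mathlib
import Pool.Agent.H11.SC.Final
import Pool.Agent.H11.SC4.Bdd4
import Pool.Agent.H11.SC4.Path4
import Pool.Agent.H11.SC4.TwoC
import Pool.Agent.H11.SC4.Norm2
import Pool.Agent.H11.SC4.Low1g

/-!
# FINAL4: assembly for conductor 4 (helper11)
-/

set_option autoImplicit false

namespace Pool.Agent.H11.SC

open Complex Pool.Agent.H11.Selberg

theorem energy_core_four (a : ℕ → ℂ) (F : ℂ → ℂ) (Q : ℝ) (r : ℕ) (lam : Fin r → ℝ)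
    (mu : Fin r → ℂ) (ε : ℂ) (h : FEq a F Q lam mu ε) (hcond : (2 * Real.pi * Bp Q lam) ^ 2 = 4)
    (c : ℕ → ℂ) (hc : TwoRel a c) :
    ∃ c C : ℝ, 0 < c ∧ ∀ x : ℝ, 2 ≤ x →
      c * Real.log x ≤ ∑ n ∈ Finset.Icc 1 ⌊x⌋₊, ‖a n‖ ^ 2 / (n : ℝ) ∧
      ∑ n ∈ Finset.Icc 1 ⌊x⌋₊, ‖a n‖ ^ 2 / (n : ℝ) ≤ C * Real.log x := by
  have hA : Approx 4 (Psi a) := by
    have := Psi_approx h
    rwa [hcond] at this
  have ha : ∃ C : ℝ, ∀ n : ℕ, 1 ≤ n → ‖a n‖ ≤ C * (n : ℝ) ^ (1 : ℝ) := h.ram 1 one_pos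
  obtain ⟨⟨M, hM⟩, C', h14, hfar⟩ := bounded_four h hcond c hc
  have hphi : ∀ z : ℂ, 0 < z.im → phi a z ≤ M := by
    intro z hz
    have h1 := hM z hz
    have h2 : 0 ≤ phi (cj a) z := by
      unfold phi
      positivity
    have h3 : Psi a z = phi a z + phi (cj a) z := rfl
    linarith
  obtain ⟨C, hC⟩ := sum_upper a ha M hphi
  obtain ⟨v0, hv0⟩ := Psi_pos h
  set v := max v0 (10 ^ 4) with hv
  have hpos := hv0 v (le_max_left _ _)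
  have horb := orbit_lower_four (Psi a) hA C' h14 hfar v (le_max_right _ _) hpos
  obtain ⟨c, Y0, hc, hY0, hlow⟩ := low_energy_gen 4 (by norm_num) a ha v (le_max_right _ _) hpos
    (by exact_mod_cast horb) count_four
  obtain ⟨c', hc', N0, hN0⟩ := sum_lower a C hC c Y0 hc hY0 hlow
  exact log_sums a h.one C hC c' hc' N0 hN0

theorem conductor_four (a : ℕ → ℂ) (F : ℂ → ℂ) (hS : IsSelberg a F) (G : ℂ → ℂ)
    (hG : Differentiable ℂ G) (hGF : ∀ s, s ≠ 1 → G s = F s)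
    (Q : ℝ) (r : ℕ) (lam : Fin r → ℝ) (mu : Fin r → ℂ) (ε : ℂ)
    (hQ : 0 < Q) (hlam : ∀ j, 0 < lam j) (hmu : ∀ j, 0 ≤ (mu j).re) (hε : ‖ε‖ = 1)
    (hfe : ∀ s : ℂ, 0 < s.re → s.re < 1 →
      completed Q lam mu F s =
        ε * (starRingEnd ℂ) (completed Q lam mu F (1 - (starRingEnd ℂ) s)))
    (hdeg : 2 * ∑ j, lam j = 2)
    (hcond : (2 * Real.pi) ^ 2 * Q ^ 2 * ∏ j, (lam j) ^ (2 * lam j) = 4) :
    ∃ C : ℝ, ∀ x : ℝ, 2 ≤ x → |S a x - Real.log (Real.log x)| ≤ C := by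
  obtain ⟨δ, F', mu', ε', h, hnorm⟩ := normalise2 a F hS G hG hGF Q r lam mu ε hQ hlam hmu hε hfe
    (by linarith)
  rw [cond_eq Q r lam hlam] at hcond
  obtain ⟨c, hc⟩ := two_rel_exists a F hS
  obtain ⟨c', hc'⟩ := hc.twist δ
  have hcore := energy_core_four _ F' Q r lam mu' ε' h hcond c' hc'
  obtain ⟨b, θ, Cb, hb⟩ := hS.euler
  have hT := equivalence a F b 1 hS ⟨θ, Cb, hb⟩ zero_le_one
  have h12 := hT.out 0 1
  have hgoal : ∃ C : ℝ, ∀ x : ℝ, 2 ≤ x → |S a x - 1 * Real.log (Real.log x)| ≤ C := by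
    rw [h12]
    obtain ⟨c, C, hc, hx⟩ := hcore
    refine ⟨c, C, hc, fun x h2 => ?_⟩
    have hsum : ∑ n ∈ Finset.Icc 1 ⌊x⌋₊, ‖a n‖ ^ 2 / (n : ℝ) =
        ∑ n ∈ Finset.Icc 1 ⌊x⌋₊, ‖a n * (n : ℂ) ^ (-(δ * I) : ℂ)‖ ^ 2 / (n : ℝ) := by
      refine Finset.sum_congr rfl fun n hn => ?_
      rw [hnorm n (Finset.mem_Icc.mp hn).1]
    rw [hsum, Real.rpow_one]
    exact hx x h2
  simpa using hgoal

end Pool.Agent.H11.SC
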